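import Pool.Agent.H614.CW.Few
import Pool.Graph.R_pool_sql_team_seeded_63374d34.Results.MP_a14ce1_nt.FixedShiftPatterns
import Pool.Graph.R_pool_sql_team_seeded_9f66d723.W4h4.CG
import Pool.Graph.R_pool_sql_team_seeded_efc1946e.K1H91.SQ.Dil

/-!
Products of values of the Liouville function along linear forms: residue classes.
-/

set_option autoImplicit false

namespace Pool.Agent.H614.CW

open Finset Filter Topology
open Pool.Agent.Y958.U (LZ LZ_iff LZ_union LZ_bdd LZ_sub LZ_empty FF FF_le SF VL)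
open Pool.Agent.Y958.TC (ind)

/-- the bound for `k` factors -/
noncomputable def gam (k : ℕ) : ℝ := if Odd k then 0 else 1 - 1 / (2 ^ (k - 1) - 1)

/-- pairwise non-proportional linear forms with positive coefficients -/
def Adm {k : ℕ} (a b : Fin k → ℕ) : Prop := (∀ i, 1 ≤ a i) ∧ ∀ i j, i ≠ j → a i * b j ≠ a j * b i

lemma ind_triv (e d : Fin 0 → ℕ) (n : ℕ) : ind (SF e d) n = 1 := by
  unfold Pool.Agent.Y958.TC.ind
  rw [if_pos]
  intro i
  exact Fin.elim0 i

/-- the explicit bound for linear forms -/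
lemma LZ_forms (m : ℕ) (c : ℝ) (hc0 : 0 < c) (hc : c * (2 ^ (m + 1) - 1) < 1) (a b : Fin (m + 2) → ℕ)
    (hab : Adm a b) : LZ {N | (1 - c) * N < |∑ n ∈ Icc 1 N, FF a b n|} := by
  rcases Pool.Agent.W4h4.CS.core' m c hc0 hc a b hab.1 hab.2 0 (fun i => Fin.elim0 i) (fun i => Fin.elim0 i)
    (fun i => Fin.elim0 i) with ⟨W, hW⟩ | ⟨-, h⟩
  · exact absurd (fun i => Fin.elim0 i) (hW 0)
  · refine LZ_sub ?_ h
    intro N hN
    rw [Set.mem_ofPred_eq] at hN ⊢
    simp only [ind_triv, one_mul]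
    simpa using hN

lemma gam_nonneg (k : ℕ) : 0 ≤ gam k := by
  unfold gam
  split_ifs with h
  · exact le_rfl
  · rcases Nat.lt_or_ge k 2 with h2 | h2
    · interval_cases k
      · norm_num
      · exact absurd (by decide) h
    · have h3 : (2 : ℝ) ^ 1 ≤ 2 ^ (k - 1) := pow_le_pow_right₀ (by norm_num) (by omega)
      have h4 : 1 / ((2 : ℝ) ^ (k - 1) - 1) ≤ 1 := by
        rw [div_le_one (by linarith)]
        linarith
      linarith

lemma gam_le_one (k : ℕ) (hk : 1 ≤ k) : gam k < 1 := by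
  unfold gam
  split_ifs with h
  · norm_num
  · have h2 : 2 ≤ k := by
      rcases Nat.lt_or_ge k 2 with h2 | h2
      · interval_cases k
        exact absurd (by decide) h
      · exact h2
    have h3 : (2 : ℝ) ^ 1 ≤ 2 ^ (k - 1) := pow_le_pow_right₀ (by norm_num) (by omega)
    have h4 : 0 < 1 / ((2 : ℝ) ^ (k - 1) - 1) := by
      apply div_pos one_pos
      linarith
    linarith

open Pool.Agent.Results.MP_a14ce1_nt.FixedShiftPatterns in
/-- the sum over a one-dimensional box -/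
lemma box_one {k : ℕ} (a b : Fin k → ℕ) (M : ℕ) :
    ∑ y ∈ Pool.Agent.Results.MP_a14ce1_nt.FixedShiftPatterns.box (n := 1) (fun _ => 0) (fun _ => M), ∏ j, lam (aff (fun _ => (a j : ℤ)) (b j : ℤ) y) =
      ∑ n ∈ Icc 1 M, FF a b n := by
  refine (sum_bij' (fun (n : ℕ) (_ : n ∈ Icc 1 M) => (fun _ : Fin 1 => (n : ℤ)))
    (fun (y : Fin 1 → ℤ) _ => (y 0).toNat) ?_ ?_ ?_ ?_ ?_).symm
  · intro n hn
    rw [mem_Icc] at hn
    unfold Pool.Agent.Results.MP_a14ce1_nt.FixedShiftPatterns.box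
    rw [Fintype.mem_piFinset]
    intro s
    rw [mem_Ioc]
    simp only
    omega
  · intro y hy
    unfold Pool.Agent.Results.MP_a14ce1_nt.FixedShiftPatterns.box at hy
    rw [Fintype.mem_piFinset] at hy
    have := hy 0
    rw [mem_Ioc] at this
    simp only at this
    rw [mem_Icc]
    omega
  · intro n _
    simp
  · intro y hy
    unfold Pool.Agent.Results.MP_a14ce1_nt.FixedShiftPatterns.box at hy
    rw [Fintype.mem_piFinset] at hy
    have := hy 0
    rw [mem_Ioc] at this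
    simp only at this
    funext s
    have hs : s = 0 := Subsingleton.elim _ _
    rw [hs]
    exact Int.toNat_of_nonneg (by omega)
  · intro n _
    unfold Pool.Agent.Y958.U.FF
    refine prod_congr rfl fun j _ => ?_
    unfold lam aff
    congr 2

open Pool.Agent.Results.MP_a14ce1_nt.FixedShiftPatterns in
/-- odd orders -/
lemma LZ_odd {k : ℕ} (hk : Odd k) (a b : Fin k → ℕ) (ha : ∀ i, 1 ≤ a i) (ε : ℝ) (hε : 0 < ε) :
    LZ {N | ε * N < |∑ n ∈ Icc 1 N, FF a b n|} := by
  classical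
  have hk1 : 0 < k := hk.pos
  have h := (result k 1 (fun j _ => (a j : ℤ)) (fun j => (b j : ℤ)) (fun j h => by
    have := congrFun h 0
    have h2 := ha j
    simp at this
    omega)).1 ⟨⟨0, hk1⟩, Or.inl (by
      have : cls (fun (j : Fin k) (_ : Fin 1) => (a j : ℤ)) ⟨0, hk1⟩ = univ := by
        unfold cls
        rw [filter_eq_self]
        intro i _ s s'
        ring
      rw [this, card_univ, Fintype.card_fin]
      exact hk)⟩ 2 ε hε
  obtain ⟨C, hC⟩ := h
  apply LZ_few _ C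
  intro J
  obtain ⟨N₀, hN₀⟩ := hC J
  refine ⟨N₀ + 2 ^ J, fun N hN => ?_⟩
  refine le_trans ?_ (hN₀ N (le_trans (Nat.le_add_right _ _) hN))
  apply sum_le_sum_of_subset_of_nonneg
  · intro i hi
    rw [mem_filter, Set.mem_ofPred_eq] at hi
    unfold excCorr
    rw [mem_filter]
    have hiJ := mem_Icc.1 hi.1
    refine ⟨hi.1, fun _ => 0, fun _ => N / 2 ^ i, ?_, ?_⟩
    · intro s
      have hJ : 2 ^ i ≤ N := by
        have : 2 ^ i ≤ 2 ^ J := Nat.pow_le_pow_right (by norm_num) hiJ.2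
        exact this.trans (le_trans (Nat.le_add_left _ _) hN)
      have hp : 0 < 2 ^ i := by positivity
      have h1 : 1 ≤ N / 2 ^ i := by rw [Nat.le_div_iff_mul_le hp]; omega
      have h2 := Nat.lt_mul_div_succ N hp
      have h3 := Nat.mul_div_le N (2 ^ i)
      have h4 : 2 ^ i * (N / 2 ^ i + 1) ≤ 2 ^ i * (2 * (N / 2 ^ i)) := Nat.mul_le_mul_left _ (by omega)
      refine ⟨?_, ?_, ?_⟩
      · simp
      · have : N ≤ 2 * 2 ^ i * (N / 2 ^ i) := by nlinarith
        exact_mod_cast this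
      · have : 2 ^ i * (N / 2 ^ i) ≤ 2 * N := by omega
        exact_mod_cast this
    · have e := box_one a b (N / 2 ^ i)
      rw [e]
      simpa using hi.2
  · intro i _ _
    positivity

/-- the bounds at almost all scales -/
lemma LZ_gam {k : ℕ} (hk : 1 ≤ k) (a b : Fin k → ℕ) (hab : Adm a b) (ε : ℝ) (hε : 0 < ε) :
    LZ {N | (gam k + ε) * N < |∑ n ∈ Icc 1 N, FF a b n|} := by
  by_cases ho : Odd k
  · have := LZ_odd ho a b hab.1 ε hε
    unfold gam
    rw [if_pos ho, zero_add]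
    exact this
  · obtain ⟨m, rfl⟩ : ∃ m, k = m + 2 := by
      refine ⟨k - 2, ?_⟩
      rcases Nat.lt_or_ge k 2 with h2 | h2
      · interval_cases k
        exact absurd (by decide) ho
      · omega
    have hZ : (1 : ℝ) ≤ 2 ^ (m + 1) - 1 := by
      have := one_le_pow₀ (one_le_two : (1 : ℝ) ≤ 2) (n := m)
      rw [pow_succ]
      linarith
    have hg : gam (m + 2) = 1 - 1 / (2 ^ (m + 1) - 1) := by
      unfold gam
      rw [if_neg ho]
      rfl
    set z : ℝ := 1 / (2 ^ (m + 1) - 1) with hz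
    have hz0 : 0 < z := by positivity
    by_cases hs : ε < z
    · refine LZ_sub ?_ (LZ_forms m (z - ε / 2) (by linarith) ?_ a b hab)
      · intro N hN
        rw [Set.mem_ofPred_eq] at hN ⊢
        refine lt_of_le_of_lt ?_ hN
        rw [hg]
        apply mul_le_mul_of_nonneg_right _ (Nat.cast_nonneg _)
        linarith
      · rw [sub_mul, hz, one_div_mul_cancel (by linarith)]
        have : 0 < ε / 2 * (2 ^ (m + 1) - 1) := by positivity
        linarith
    · refine LZ_sub ?_ LZ_empty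
      intro N hN
      rw [Set.mem_ofPred_eq] at hN
      exfalso
      have h1 : |∑ n ∈ Icc 1 N, FF a b n| ≤ N := by
        refine (abs_sum_le_sum_abs _ _).trans ((sum_le_sum fun n _ => FF_le a b n).trans ?_)
        simp
      have h2 : (1 : ℝ) * N ≤ (gam (m + 2) + ε) * N := by
        apply mul_le_mul_of_nonneg_right _ (Nat.cast_nonneg _)
        rw [hg]
        linarith
      linarith

/-- the terms of a residue class -/
lemma class_sum {g : ℕ → ℝ} (hg : ∀ n, |g n| ≤ 1) (Q r N : ℕ) (hr : r < Q) :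
    |∑ n ∈ (Icc 1 N).filter (fun n => n % Q = r), g n - ∑ m ∈ Icc 1 (N / Q), g (Q * m + r)| ≤ 2 := by
  have hQ : 0 < Q := by omega
  set S2 := (Icc 1 (N / Q)).image (fun m => Q * m + r) with hS2
  set S1 := (Icc 1 N).filter (fun n => n % Q = r) with hS1
  have e1 : ∑ m ∈ Icc 1 (N / Q), g (Q * m + r) = ∑ n ∈ S2, g n := by
    rw [hS2, sum_image]
    intro m _ m' _ h
    simp only at h
    exact Nat.eq_of_mul_eq_mul_left hQ (by omega)
  rw [e1, ← sum_sdiff_sub_sum_sdiff]
  have h1 : S1 \ S2 ⊆ {r} := by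
    intro n hn
    rw [Finset.mem_sdiff, hS1, mem_filter, mem_Icc, hS2, mem_image] at hn
    obtain ⟨⟨⟨hn1, hnN⟩, hnr⟩, hn2⟩ := hn
    rw [mem_singleton]
    by_contra hne
    apply hn2
    refine ⟨n / Q, ?_, ?_⟩
    · rw [mem_Icc]
      constructor
      · by_contra hc
        have : n / Q = 0 := Nat.lt_one_iff.1 (not_le.1 hc)
        have h3 := Nat.div_add_mod n Q
        rw [this, hnr, mul_zero, zero_add] at h3
        exact hne h3.symm
      · exact Nat.div_le_div_right hnN
    · rw [← hnr]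
      exact Nat.div_add_mod n Q
  have h2 : S2 \ S1 ⊆ {Q * (N / Q) + r} := by
    intro n hn
    rw [Finset.mem_sdiff, hS1, mem_filter, mem_Icc, hS2, mem_image] at hn
    obtain ⟨⟨m, hm, rfl⟩, hn2⟩ := hn
    rw [mem_Icc] at hm
    rw [mem_singleton]
    by_contra hne
    apply hn2
    have hm2 : m < N / Q := by
      rcases Nat.lt_or_ge m (N / Q) with h | h
      · exact h
      · exact absurd (by rw [show m = N / Q by omega]) hne
    have h3 : Q * (m + 1) ≤ Q * (N / Q) := Nat.mul_le_mul_left _ hm2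
    have h4 := Nat.mul_div_le N Q
    have h5 : Q * (m + 1) = Q * m + Q := by ring
    have h6 : 0 < Q * m := Nat.mul_pos hQ (by omega)
    refine ⟨⟨by omega, by omega⟩, ?_⟩
    rw [Nat.mul_add_mod, Nat.mod_eq_of_lt hr]
  have b1 : |∑ n ∈ S1 \ S2, g n| ≤ 1 := by
    refine (abs_sum_le_sum_abs _ _).trans ((sum_le_sum fun n _ => hg n).trans ?_)
    rw [sum_const, nsmul_eq_mul, mul_one]
    exact_mod_cast (card_le_card h1).trans (by simp)
  have b2 : |∑ n ∈ S2 \ S1, g n| ≤ 1 := by
    refine (abs_sum_le_sum_abs _ _).trans ((sum_le_sum fun n _ => hg n).trans ?_)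
    rw [sum_const, nsmul_eq_mul, mul_one]
    exact_mod_cast (card_le_card h2).trans (by simp)
  rw [abs_le] at *
  constructor <;> linarith

lemma FF_class {k : ℕ} (a b : Fin k → ℕ) (Q m r : ℕ) :
    FF a b (Q * m + r) = FF (fun i => a i * Q) (fun i => a i * r + b i) m := by
  unfold Pool.Agent.Y958.U.FF
  refine prod_congr rfl fun i _ => ?_
  congr 2
  ring

lemma Adm_class {k : ℕ} {a b : Fin k → ℕ} (hab : Adm a b) (Q r : ℕ) (hQ : 1 ≤ Q) :
    Adm (fun i => a i * Q) (fun i => a i * r + b i) := by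
  refine ⟨fun i => Nat.mul_pos (hab.1 i) hQ, fun i j hij h => hab.2 i j hij ?_⟩
  have h1 : Q * (a i * (a j * r + b j)) = Q * (a j * (a i * r + b i)) := by
    have h' : a i * Q * (a j * r + b j) = a j * Q * (a i * r + b i) := h
    linarith
  have h2 := Nat.eq_of_mul_eq_mul_left (by omega) h1
  have h3 : a i * (a j * r + b j) = a i * a j * r + a i * b j := by ring
  have h4 : a j * (a i * r + b i) = a i * a j * r + a j * b i := by ring
  omega

/-- residue classes: logarithmic averages -/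
theorem class_log {k : ℕ} (hk : 1 ≤ k) (a b : Fin k → ℕ) (hab : Adm a b) (Q r : ℕ) (hr : r < Q) (ε : ℝ)
    (hε : 0 < ε) : ∀ᶠ X : ℕ in atTop,
      |∑ n ∈ (Icc 1 X).filter (fun n => n % Q = r), FF a b n / n| ≤ (gam k / Q + ε) * Real.log X := by
  classical
  have hQ : 1 ≤ Q := by omega
  have hQ0 : (0 : ℝ) < Q := by exact_mod_cast hQ
  have hQr : (1 : ℝ) ≤ Q := by exact_mod_cast hQ
  have h1 := LZ_gam hk _ _ (Adm_class hab Q r hQ) (ε / 4) (by positivity)
  have h2 := Pool.Agent.K1H91.SQ.LZ_floor _ Q 1 hQ le_rfl h1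
  set F : ℕ → ℂ := fun n => if n % Q = r then ((FF a b n : ℝ) : ℂ) else 0 with hF
  have hF1 : ∀ n, ‖F n‖ ≤ 1 := by
    intro n
    rw [hF]
    simp only
    split_ifs
    · rw [Complex.norm_real, Real.norm_eq_abs]
      exact FF_le a b n
    · simp
  have hg := gam_nonneg k
  have hev : ∀ᶠ N : ℕ in atTop, N ∉ {N | N / Q * 1 ∈ {N | (gam k + ε / 4) * N <
      |∑ n ∈ Icc 1 N, FF (fun i => a i * Q) (fun i => a i * r + b i) n|}} →
      ‖∑ n ∈ Icc 1 N, F n‖ ≤ (gam k / Q + ε / 2) * N := by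
    obtain ⟨N₁, hN₁⟩ := exists_nat_ge (8 / ε)
    filter_upwards [eventually_ge_atTop N₁] with N hN hNE
    rw [mul_one, not_lt] at hNE
    have h3 := class_sum (g := FF a b) (FF_le a b) Q r N hr
    have h4 : ∀ m ∈ Icc 1 (N / Q), FF a b (Q * m + r) = FF (fun i => a i * Q) (fun i => a i * r + b i) m :=
      fun m _ => FF_class a b Q m r
    rw [sum_congr rfl h4] at h3
    have e1 : ∑ n ∈ Icc 1 N, F n = ((∑ n ∈ (Icc 1 N).filter (fun n => n % Q = r), FF a b n : ℝ) : ℂ) := by
      rw [hF, sum_filter]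
      push_cast
      refine sum_congr rfl fun n _ => ?_
      split_ifs <;> simp
    rw [e1, Complex.norm_real, Real.norm_eq_abs]
    have h5 : ((N / Q : ℕ) : ℝ) ≤ N / Q := Nat.cast_div_le
    have h6 : |∑ n ∈ (Icc 1 N).filter (fun n => n % Q = r), FF a b n| ≤ (gam k + ε / 4) * ((N / Q : ℕ) : ℝ) + 2 := by
      have := abs_sub_abs_le_abs_sub (∑ n ∈ (Icc 1 N).filter (fun n => n % Q = r), FF a b n)
        (∑ m ∈ Icc 1 (N / Q), FF (fun i => a i * Q) (fun i => a i * r + b i) m)
      linarith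
    have h7 : (2 : ℝ) ≤ ε / 4 * N := by
      have : (8 : ℝ) / ε ≤ N := hN₁.trans (by exact_mod_cast hN)
      rw [div_le_iff₀ hε] at this
      linarith
    have h8 : (gam k + ε / 4) * ((N / Q : ℕ) : ℝ) ≤ (gam k + ε / 4) * (N / Q) :=
      mul_le_mul_of_nonneg_left h5 (by positivity)
    have h9 : (gam k + ε / 4) * ((N : ℝ) / Q) = gam k / Q * N + ε / 4 * N / Q := by ring
    have h10 : ε / 4 * N / Q ≤ ε / 4 * N := div_le_self (by positivity) hQr
    linarith
  have h11 := log_avg _ h2 (gam k / Q + ε / 2) (by positivity) F hF1 hev (ε / 2) (by positivity)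
  filter_upwards [h11] with X hX
  have e2 : ∑ n ∈ Icc 1 X, F n / n = ((∑ n ∈ (Icc 1 X).filter (fun n => n % Q = r), FF a b n / n : ℝ) : ℂ) := by
    rw [hF, sum_filter]
    push_cast
    refine sum_congr rfl fun n _ => ?_
    split_ifs <;> simp
  rw [e2, Complex.norm_real, Real.norm_eq_abs] at hX
  refine hX.trans (le_of_eq ?_)
  ring

end Pool.Agent.H614.CW
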