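import Pool.Agent.H614.CW.Herg

/-!
Logarithmic averages with positive definite weights: the core estimate.
-/

set_option autoImplicit false

namespace Pool.Agent.H614.CW

open Finset Filter Topology MeasureTheory ComplexConjugate

/-- the points of the circle annihilated by `Q` -/
def RQ (Q : ℕ) : Set Cir := {x | Q • x = 0}

lemma RQ_meas (Q : ℕ) : MeasurableSet (RQ Q) :=
  (isClosed_eq (continuous_nsmul Q) continuous_const).measurableSet

lemma fourier_RQ {Q : ℕ} {x : Cir} (hx : x ∈ RQ Q) : (fourier (Q : ℤ) x : ℂ) = 1 := by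
  rw [fourier_apply, natCast_zsmul, show Q • x = 0 from hx]
  exact fourier_zero'

lemma fourier_not_RQ {Q : ℕ} {x : Cir} (hx : x ∉ RQ Q) : (fourier (Q : ℤ) x : ℂ) ≠ 1 := by
  intro h
  apply hx
  rw [fourier_apply, natCast_zsmul] at h
  have h1 : AddCircle.toCircle (Q • x) = AddCircle.toCircle (0 : Cir) := by
    apply Subtype.ext
    rw [AddCircle.toCircle_zero]
    simpa using h
  exact AddCircle.injective_toCircle one_ne_zero h1

lemma fourier_mul_int (m n : ℤ) (x : Cir) : (fourier (m * n) x : ℂ) = (fourier m x : ℂ) ^ n := by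
  rw [fourier_apply, fourier_apply, mul_comm, mul_smul, AddCircle.toCircle_zsmul]
  push_cast
  rfl

lemma fourier_congr {Q : ℕ} {x : Cir} (hx : x ∈ RQ Q) {m n : ℤ} (h : m ≡ n [ZMOD Q]) :
    (fourier m x : ℂ) = fourier n x := by
  obtain ⟨t, ht⟩ := h.symm.dvd
  have e : m = n + Q * t := by linarith
  rw [e, fourier_add, fourier_mul_int, fourier_RQ hx, one_zpow, mul_one]

lemma norm_fourier (m : ℤ) (x : Cir) : ‖(fourier m x : ℂ)‖ = 1 := by
  rw [fourier_apply]
  exact Circle.norm_coe _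

lemma int_fourier_fin (σ : Measure Cir) [IsFiniteMeasure σ] (m : ℤ) :
    Integrable (fun x : Cir => (fourier m x : ℂ)) σ :=
  (fourier m).continuous.integrable_of_hasCompactSupport (HasCompactSupport.of_compactSpace _)

/-- averages along a progression converge to the integral over `RQ` -/
lemma avg_prog (σ : Measure Cir) [IsFiniteMeasure σ] (Q : ℕ) (m : ℤ) :
    Tendsto (fun L : ℕ => (1 / (L : ℂ)) * ∑ l ∈ range L, ∫ x, (fourier (m + Q * l) x : ℂ) ∂σ) atTop
      (𝓝 (∫ x in RQ Q, (fourier m x : ℂ) ∂σ)) := by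
  have h1 : ∀ L : ℕ, (1 / (L : ℂ)) * ∑ l ∈ range L, ∫ x, (fourier (m + Q * l) x : ℂ) ∂σ =
      ∫ x, (1 / (L : ℂ)) * ∑ l ∈ range L, (fourier (m + Q * l) x : ℂ) ∂σ := by
    intro L
    rw [integral_const_mul, integral_finsetSum]
    intro l _
    exact int_fourier_fin σ _
  simp only [h1]
  rw [← integral_indicator (RQ_meas Q)]
  apply tendsto_integral_of_dominated_convergence (fun _ => (1 : ℝ))
  · intro L
    exact Continuous.aestronglyMeasurable (by fun_prop)
  · exact integrable_const _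
  · intro L
    refine Eventually.of_forall fun x => ?_
    rw [norm_mul]
    have h2 : ‖∑ l ∈ range L, (fourier (m + Q * l) x : ℂ)‖ ≤ L := by
      refine (norm_sum_le _ _).trans ?_
      simp only [norm_fourier]
      simp
    rcases Nat.eq_zero_or_pos L with hL | hL
    · subst hL; simp
    · have hL0 : (0 : ℝ) < L := by exact_mod_cast hL
      rw [norm_div, norm_one, Complex.norm_natCast, one_div, inv_mul_le_iff₀ hL0, mul_one]
      exact h2
  · refine Eventually.of_forall fun x => ?_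
    by_cases hx : x ∈ RQ Q
    · rw [Set.indicator_of_mem hx]
      refine tendsto_const_nhds.congr' ?_
      filter_upwards [eventually_ge_atTop 1] with L hL
      have hL0 : (L : ℂ) ≠ 0 := by exact_mod_cast (by omega : L ≠ 0)
      have h3 : ∀ l ∈ range L, (fourier (m + Q * l) x : ℂ) = fourier m x := by
        intro l _
        apply fourier_congr hx
        exact (Int.modEq_iff_dvd.2 ⟨-l, by ring⟩)
      rw [sum_congr rfl h3, sum_const, card_range, nsmul_eq_mul]
      field_simp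
    · rw [Set.indicator_of_notMem hx]
      have hz := fourier_not_RQ hx
      set z : ℂ := (fourier (Q : ℤ) x : ℂ) with hzd
      have h3 : ∀ L : ℕ, ∑ l ∈ range L, (fourier (m + Q * l) x : ℂ) = fourier m x * ((z ^ L - 1) / (z - 1)) := by
        intro L
        rw [← geom_sum_eq hz, mul_sum]
        refine sum_congr rfl fun l _ => ?_
        rw [fourier_add, fourier_mul_int, ← hzd, zpow_natCast]
      have hz1 : ‖z‖ = 1 := norm_fourier _ _
      have hz0 : 0 < ‖z - 1‖ := norm_pos_iff.2 (sub_ne_zero.2 hz)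
      rw [tendsto_zero_iff_norm_tendsto_zero]
      have h4 : Tendsto (fun L : ℕ => (2 / ‖z - 1‖) / (L : ℝ)) atTop (𝓝 0) :=
        tendsto_const_div_atTop_nhds_zero_nat _
      refine squeeze_zero (fun _ => norm_nonneg _) (fun L => ?_) h4
      rw [h3, norm_mul, norm_mul, norm_fourier, one_mul, norm_div, norm_div, norm_one, Complex.norm_natCast]
      have h5 : ‖z ^ L - 1‖ ≤ 2 := by
        refine (norm_sub_le _ _).trans ?_
        rw [norm_pow, hz1, one_pow, norm_one]
        norm_num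
      rw [one_div, inv_mul_eq_div]
      apply div_le_div_of_nonneg_right _ (Nat.cast_nonneg _)
      exact div_le_div_of_nonneg_right h5 hz0.le

/-- the periodic part of the weight -/
noncomputable def wQ (σ : Measure Cir) (Q : ℕ) (m : ℤ) : ℝ := (∫ x in RQ Q, (fourier m x : ℂ) ∂σ).re

lemma wQ_spec (σ : Measure Cir) [IsFiniteMeasure σ] (w : ℤ → ℝ) (hw : ∀ m, ∫ x, (fourier m x : ℂ) ∂σ = w m)
    (hw0 : ∀ m, 0 ≤ w m) (Q : ℕ) (m : ℤ) : 0 ≤ wQ σ Q m ∧ ∫ x in RQ Q, (fourier m x : ℂ) ∂σ = (wQ σ Q m : ℂ) := by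
  have h1 := avg_prog σ Q m
  simp only [hw] at h1
  have h2 : ∀ L : ℕ, (1 / (L : ℂ)) * ∑ l ∈ range L, ((w (m + Q * l) : ℝ) : ℂ) =
      (((1 / (L : ℝ)) * ∑ l ∈ range L, w (m + Q * l) : ℝ) : ℂ) := by
    intro L; push_cast; rfl
  simp only [h2] at h1
  have hre := (Complex.continuous_re.tendsto _).comp h1
  have him := (Complex.continuous_im.tendsto _).comp h1
  simp only [Function.comp_def, Complex.ofReal_re, Complex.ofReal_im] at hre him
  have him0 := tendsto_nhds_unique him tendsto_const_nhds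
  refine ⟨ge_of_tendsto' hre fun L => ?_, ?_⟩
  · exact mul_nonneg (by positivity) (sum_nonneg fun l _ => hw0 _)
  · apply Complex.ext
    · rfl
    · rw [him0]; rfl

lemma wQ_congr (σ : Measure Cir) (Q : ℕ) {m n : ℤ} (h : m ≡ n [ZMOD Q]) : wQ σ Q m = wQ σ Q n := by
  unfold wQ
  congr 1
  apply setIntegral_congr_fun (RQ_meas Q)
  intro x hx
  exact fourier_congr hx h

lemma wQ_le (σ : Measure Cir) [IsFiniteMeasure σ] (Q : ℕ) (m : ℤ) : wQ σ Q m ≤ σ.real Set.univ := by
  unfold wQ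
  refine (Complex.re_le_norm _).trans ?_
  refine (norm_setIntegral_le_of_norm_le_const (C := 1) (measure_lt_top _ _) fun x _ => (norm_fourier m x).le).trans ?_
  rw [one_mul]
  exact measureReal_mono (Set.subset_univ _)

/-- the torsion points -/
def Tor : Set Cir := {x | ∃ q : ℕ, 1 ≤ q ∧ q • x = 0}

lemma Tor_meas : MeasurableSet Tor := by
  have : Tor = ⋃ q : ℕ, if 1 ≤ q then RQ q else ∅ := by
    ext x
    simp only [Tor, Set.mem_ofPred_eq, Set.mem_iUnion]
    constructor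
    · rintro ⟨q, hq, h⟩
      exact ⟨q, by rw [if_pos hq]; exact h⟩
    · rintro ⟨q, h⟩
      by_cases hq : 1 ≤ q
      · rw [if_pos hq] at h
        exact ⟨q, hq, h⟩
      · rw [if_neg hq] at h
        exact absurd h (Set.notMem_empty _)
  rw [this]
  apply MeasurableSet.iUnion
  intro q
  split_ifs
  · exact RQ_meas q
  · exact MeasurableSet.empty

lemma RQ_dvd {Q Q' : ℕ} (h : Q ∣ Q') : RQ Q ⊆ RQ Q' := by
  rintro x hx
  obtain ⟨t, rfl⟩ := h
  change (Q * t) • x = 0
  rw [mul_comm, mul_smul, show Q • x = 0 from hx, smul_zero]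

lemma RQ_sub_Tor {Q : ℕ} (hQ : 1 ≤ Q) : RQ Q ⊆ Tor := fun _ hx => ⟨Q, hQ, hx⟩

/-- the remaining torsion points have small measure -/
lemma tor_small (σ : Measure Cir) [IsFiniteMeasure σ] :
    Tendsto (fun j : ℕ => σ.real (Tor \ RQ j.factorial)) atTop (𝓝 0) := by
  have h1 : Tendsto (fun j : ℕ => σ (Tor \ RQ j.factorial)) atTop (𝓝 (σ (⋂ j : ℕ, Tor \ RQ j.factorial))) := by
    apply tendsto_measure_iInter_atTop
    · intro j
      exact (Tor_meas.diff (RQ_meas _)).nullMeasurableSet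
    · intro i j hij x hx
      exact ⟨hx.1, fun h => hx.2 (RQ_dvd (Nat.factorial_dvd_factorial hij) h)⟩
    · exact ⟨0, measure_ne_top _ _⟩
  have h2 : (⋂ j : ℕ, Tor \ RQ j.factorial) = ∅ := by
    ext x
    simp only [Set.mem_iInter, Set.mem_empty_iff_false, iff_false, not_forall]
    by_cases hx : x ∈ Tor
    · obtain ⟨q, hq, hqx⟩ := hx
      refine ⟨q, fun h => h.2 ?_⟩
      exact RQ_dvd (Nat.dvd_factorial (by omega) le_rfl) hqx
    · exact ⟨0, fun h => hx h.1⟩
  rw [h2, measure_empty] at h1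
  have h3 := (ENNReal.tendsto_toReal ENNReal.zero_ne_top).comp h1
  simpa [Function.comp_def, Measure.real] using h3

/-- the exponential sum with logarithmic weights -/
noncomputable def SX (h : ℕ → ℝ) (f : ℕ → ℤ) (X : ℕ) (x : Cir) : ℂ :=
  ∑ n ∈ Icc 1 X, ((h n / n : ℝ) : ℂ) * fourier (f n) x

lemma harm_le (X : ℕ) : ∑ N ∈ Icc 1 X, (1 : ℝ) / N ≤ 1 + Real.log X := by
  have h := harmonic_le_one_add_log X
  rw [harmonic_eq_sum_Icc] at h
  push_cast at h
  simpa [one_div] using h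

lemma SX_cont (h : ℕ → ℝ) (f : ℕ → ℤ) (X : ℕ) : Continuous (SX h f X) := by
  unfold SX
  fun_prop

lemma SX_le {h : ℕ → ℝ} {B : ℝ} (hB : ∀ n, |h n| ≤ B) (f : ℕ → ℤ) (X : ℕ) (x : Cir) :
    ‖SX h f X x‖ ≤ B * (1 + Real.log X) := by
  have hB0 : 0 ≤ B := (abs_nonneg _).trans (hB 0)
  unfold SX
  refine (norm_sum_le _ _).trans ?_
  refine le_trans ?_ (mul_le_mul_of_nonneg_left (harm_le X) hB0)
  rw [mul_sum]
  refine sum_le_sum fun n _ => ?_
  rw [norm_mul, norm_fourier, mul_one, Complex.norm_real, Real.norm_eq_abs, abs_div, Nat.abs_cast, div_eq_mul_one_div]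
  exact mul_le_mul_of_nonneg_right (hB n) (by positivity)

lemma SX_int (σ : Measure Cir) [IsFiniteMeasure σ] (h : ℕ → ℝ) (f : ℕ → ℤ) (X : ℕ) (D : Set Cir) :
    ∫ x in D, SX h f X x ∂σ = ∑ n ∈ Icc 1 X, ((h n / n : ℝ) : ℂ) * ∫ x in D, (fourier (f n) x : ℂ) ∂σ := by
  unfold SX
  rw [integral_finsetSum]
  · refine sum_congr rfl fun n _ => ?_
    rw [integral_const_mul]
  · intro n _
    exact (int_fourier_fin _ _).const_mul _

/-- dominated convergence on a set of frequencies -/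
lemma dom (σ : Measure Cir) [IsFiniteMeasure σ] {h : ℕ → ℝ} {B : ℝ} (hB : ∀ n, |h n| ≤ B) (f : ℕ → ℤ)
    (D : Set Cir) (hD : MeasurableSet D)
    (hlim : ∀ x ∈ D, Tendsto (fun X : ℕ => SX h f X x / Real.log X) atTop (𝓝 0)) :
    Tendsto (fun X : ℕ => (∫ x in D, SX h f X x ∂σ) / Real.log X) atTop (𝓝 0) := by
  have hB0 : 0 ≤ B := (abs_nonneg _).trans (hB 0)
  have h1 : ∀ X : ℕ, (∫ x in D, SX h f X x ∂σ) / Real.log X = ∫ x in D, SX h f X x / Real.log X ∂σ := by
    intro X
    rw [integral_div]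
  simp only [h1]
  have h2 : (0 : ℂ) = ∫ x in D, (fun _ => (0 : ℂ)) x ∂σ := by simp
  rw [h2]
  apply tendsto_integral_filter_of_dominated_convergence (fun _ => B * 2)
  · exact Eventually.of_forall fun X => ((SX_cont h f X).div_const _).aestronglyMeasurable
  · have hlog : Tendsto (fun X : ℕ => Real.log X) atTop atTop :=
      Real.tendsto_log_atTop.comp tendsto_natCast_atTop_atTop
    filter_upwards [hlog.eventually_ge_atTop 1] with X hX
    refine Eventually.of_forall fun x => ?_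
    rw [norm_div, Complex.norm_real, Real.norm_eq_abs, abs_of_nonneg (by linarith), div_le_iff₀ (by linarith)]
    refine (SX_le hB f X x).trans ?_
    nlinarith
  · exact integrable_const _
  · exact (ae_restrict_iff' hD).2 (Eventually.of_forall fun x hx => hlim x hx)

/-- all frequencies -/
theorem core_all (σ : Measure Cir) [IsFiniteMeasure σ] {h : ℕ → ℝ} {B : ℝ} (hB : ∀ n, |h n| ≤ B) (f : ℕ → ℤ)
    (hlim : ∀ x, Tendsto (fun X : ℕ => SX h f X x / Real.log X) atTop (𝓝 0)) :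
    Tendsto (fun X : ℕ => (∑ n ∈ Icc 1 X, ((h n / n : ℝ) : ℂ) * ∫ x, (fourier (f n) x : ℂ) ∂σ) / Real.log X)
      atTop (𝓝 0) := by
  have h1 := dom σ hB f Set.univ MeasurableSet.univ fun x _ => hlim x
  have h2 : ∀ X : ℕ, ∫ x, SX h f X x ∂σ = ∑ n ∈ Icc 1 X, ((h n / n : ℝ) : ℂ) * ∫ x, (fourier (f n) x : ℂ) ∂σ := by
    intro X
    have := SX_int σ h f X Set.univ
    rwa [Measure.restrict_univ] at this
  simp only [Measure.restrict_univ, h2] at h1
  exact h1

/-- **The core estimate.** -/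
theorem core (σ : Measure Cir) [IsFiniteMeasure σ] (w : ℤ → ℝ) (hw : ∀ m, ∫ x, (fourier m x : ℂ) ∂σ = w m)
    (hw0 : ∀ m, 0 ≤ w m) (f : ℕ → ℤ) (hf : ∀ Q n : ℕ, f n ≡ f (n % Q) [ZMOD Q])
    {h : ℕ → ℝ} {B : ℝ} (hB : ∀ n, |h n| ≤ B)
    (hirr : ∀ x, x ∉ Tor → Tendsto (fun X : ℕ => SX h f X x / Real.log X) atTop (𝓝 0))
    (hcls : ∀ Q r : ℕ, 1 ≤ Q → r < Q → ∀ ε : ℝ, 0 < ε → ∀ᶠ X : ℕ in atTop,
      ∑ n ∈ (Icc 1 X).filter (fun n => n % Q = r), h n / n ≤ ε * Real.log X) (ε : ℝ) (hε : 0 < ε) :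
    ∀ᶠ X : ℕ in atTop, ∑ n ∈ Icc 1 X, h n * w (f n) / n ≤ ε * Real.log X := by
  have hB0 : 0 ≤ B := (abs_nonneg _).trans (hB 0)
  -- the modulus
  obtain ⟨j, hj⟩ := ((tendsto_order.1 (tor_small σ)).2 (ε / (6 * (B + 1))) (by positivity)).exists
  set Q := j.factorial with hQ
  have hQ1 : 1 ≤ Q := Nat.factorial_pos j
  set M := σ.real Set.univ with hM
  have hM0 : 0 ≤ M := measureReal_nonneg
  have hlog : Tendsto (fun X : ℕ => Real.log X) atTop atTop :=
    Real.tendsto_log_atTop.comp tendsto_natCast_atTop_atTop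
  have hd := dom σ hB f Torᶜ Tor_meas.compl hirr
  have hd' := (tendsto_order.1 ((tendsto_zero_iff_norm_tendsto_zero).1 hd)).2 (ε / 3) (by positivity)
  have hc : ∀ᶠ X : ℕ in atTop, ∀ r ∈ range Q, ∑ n ∈ (Icc 1 X).filter (fun n => n % Q = r), h n / n ≤
      (ε / (3 * (Q * (M + 1)))) * Real.log X := by
    rw [Filter.eventually_all_finset]
    intro r hr
    have hQ0 : (0 : ℝ) < Q := by exact_mod_cast hQ1
    exact hcls Q r hQ1 (mem_range.1 hr) _ (by positivity)
  filter_upwards [hd', hc, hlog.eventually_ge_atTop 1] with X h1 h2 h3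
  have hlogpos : 0 < Real.log X := by linarith
  -- the decomposition
  have e1 : ((∑ n ∈ Icc 1 X, h n * w (f n) / n : ℝ) : ℂ) = ∫ x, SX h f X x ∂σ := by
    have := SX_int σ h f X Set.univ
    rw [Measure.restrict_univ] at this
    rw [this]
    push_cast
    refine sum_congr rfl fun n _ => ?_
    rw [hw]
    ring
  have hi : ∀ D : Set Cir, IntegrableOn (SX h f X) D σ := fun D =>
    ((SX_cont h f X).integrable_of_hasCompactSupport (HasCompactSupport.of_compactSpace _)).integrableOn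
  have e2 : ∫ x, SX h f X x ∂σ = (∫ x in RQ Q, SX h f X x ∂σ) + (∫ x in Tor \ RQ Q, SX h f X x ∂σ) +
      ∫ x in Torᶜ, SX h f X x ∂σ := by
    rw [← setIntegral_union Set.disjoint_sdiff_right (Tor_meas.diff (RQ_meas Q)) (hi _) (hi _),
      Set.union_sdiff_cancel (RQ_sub_Tor hQ1), ← setIntegral_univ (μ := σ), ← Set.union_compl_self Tor,
      setIntegral_union disjoint_compl_right Tor_meas.compl (hi _) (hi _)]
  have e3 : (∫ x in RQ Q, SX h f X x ∂σ) =
      ((∑ r ∈ range Q, wQ σ Q (f r) * ∑ n ∈ (Icc 1 X).filter (fun n => n % Q = r), h n / n : ℝ) : ℂ) := by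
    rw [SX_int]
    have e4 : ∀ n ∈ Icc 1 X, ((h n / n : ℝ) : ℂ) * ∫ x in RQ Q, (fourier (f n) x : ℂ) ∂σ =
        ((wQ σ Q (f (n % Q)) * (h n / n) : ℝ) : ℂ) := by
      intro n _
      rw [(wQ_spec σ w hw hw0 Q (f n)).2, wQ_congr σ Q (hf Q n)]
      push_cast
      ring
    rw [sum_congr rfl e4, ← Complex.ofReal_sum]
    congr 1
    rw [← sum_fiberwise_of_maps_to (g := fun n => n % Q) (t := range Q)
      (fun n _ => mem_range.2 (Nat.mod_lt _ (by omega)))]
    refine sum_congr rfl fun r _ => ?_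
    rw [mul_sum]
    refine sum_congr rfl fun n hn => ?_
    rw [(mem_filter.1 hn).2]
  -- the three parts
  have p1 : (∫ x in RQ Q, SX h f X x ∂σ).re ≤ ε / 3 * Real.log X := by
    rw [e3, Complex.ofReal_re]
    have hQ0 : (0 : ℝ) < Q := by exact_mod_cast hQ1
    have hb : 0 ≤ (ε / (3 * (Q * (M + 1)))) * Real.log X := by positivity
    calc ∑ r ∈ range Q, wQ σ Q (f r) * ∑ n ∈ (Icc 1 X).filter (fun n => n % Q = r), h n / n
        ≤ ∑ r ∈ range Q, (M + 1) * ((ε / (3 * (Q * (M + 1)))) * Real.log X) := by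
          refine sum_le_sum fun r hr => ?_
          have q1 := (wQ_spec σ w hw hw0 Q (f r)).1
          have q2 := wQ_le σ Q (f r)
          calc wQ σ Q (f r) * ∑ n ∈ (Icc 1 X).filter (fun n => n % Q = r), h n / n
              ≤ wQ σ Q (f r) * ((ε / (3 * (Q * (M + 1)))) * Real.log X) :=
                mul_le_mul_of_nonneg_left (h2 r hr) q1
            _ ≤ (M + 1) * ((ε / (3 * (Q * (M + 1)))) * Real.log X) :=
                mul_le_mul_of_nonneg_right (by linarith) hb
      _ = ε / 3 * Real.log X := by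
          rw [sum_const, card_range, nsmul_eq_mul]
          field_simp
  have p2 : (∫ x in Tor \ RQ Q, SX h f X x ∂σ).re ≤ ε / 3 * Real.log X := by
    refine (Complex.re_le_norm _).trans ?_
    refine (norm_setIntegral_le_of_norm_le_const (C := B * (1 + Real.log X)) (measure_lt_top _ _)
      fun x _ => SX_le hB f X x).trans ?_
    have q1 : B * (1 + Real.log X) ≤ (B + 1) * (2 * Real.log X) := by nlinarith
    calc B * (1 + Real.log X) * σ.real (Tor \ RQ Q) ≤ (B + 1) * (2 * Real.log X) * (ε / (6 * (B + 1))) :=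
          mul_le_mul q1 hj.le measureReal_nonneg (by positivity)
      _ = ε / 3 * Real.log X := by field_simp; ring
  have p3 : (∫ x in Torᶜ, SX h f X x ∂σ).re ≤ ε / 3 * Real.log X := by
    refine (Complex.re_le_norm _).trans ?_
    rw [norm_div, Complex.norm_real, Real.norm_eq_abs, abs_of_pos hlogpos, div_lt_iff₀ hlogpos] at h1
    exact h1.le
  have e5 : ∑ n ∈ Icc 1 X, h n * w (f n) / n = (∫ x, SX h f X x ∂σ).re := by
    rw [← e1, Complex.ofReal_re]
  rw [e5, e2, Complex.add_re, Complex.add_re]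
  linarith

end Pool.Agent.H614.CW
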