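import Mathlib

/-!
Positive definite sequences on the integers and Herglotz' theorem.
-/

set_option autoImplicit false

namespace Pool.Agent.H614.CW

open Finset Filter Topology MeasureTheory ComplexConjugate

/-- `ρ` is positive definite: the sums `∑ c_i conj(c_j) ρ(i - j)` are real and not negative. -/
def PosDef (ρ : ℤ → ℂ) : Prop :=
  ∀ (N : ℕ) (c : ℕ → ℂ), ∃ t : ℝ, 0 ≤ t ∧
    ∑ i ∈ range N, ∑ j ∈ range N, c i * conj (c j) * ρ ((i : ℤ) - j) = t

/-- the circle -/
abbrev Cir := UnitAddCircle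

/-- the Fejér sum -/
noncomputable def dens (ρ : ℤ → ℂ) (N : ℕ) (x : Cir) : ℂ :=
  (1 / (N : ℂ)) * ∑ i ∈ range N, ∑ j ∈ range N, ρ ((i : ℤ) - j) * fourier (-((i : ℤ) - j)) x

lemma dens_cont (ρ : ℤ → ℂ) (N : ℕ) : Continuous (dens ρ N) := by
  unfold dens
  fun_prop

lemma dens_real {ρ : ℤ → ℂ} (h : PosDef ρ) (N : ℕ) (x : Cir) :
    0 ≤ (dens ρ N x).re ∧ ((dens ρ N x).re : ℂ) = dens ρ N x := by
  obtain ⟨t, ht, hs⟩ := h N fun i => fourier (-(i : ℤ)) x
  have h1 : dens ρ N x = ((t / N : ℝ) : ℂ) := by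
    unfold dens
    have h2 : ∑ i ∈ range N, ∑ j ∈ range N, ρ ((i : ℤ) - j) * fourier (-((i : ℤ) - j)) x = (t : ℂ) := by
      rw [← hs]
      refine sum_congr rfl fun i _ => sum_congr rfl fun j _ => ?_
      rw [← fourier_neg, neg_neg, ← fourier_add]
      rw [show -((i : ℤ) - j) = -i + j by ring]
      ring
    rw [h2]
    push_cast
    ring
  rw [h1, Complex.ofReal_re]
  exact ⟨by positivity, rfl⟩

/-- the number of pairs with a given difference -/
lemma cnt_nonneg (N m : ℕ) : (∑ i ∈ range N, ∑ j ∈ range N, if (i : ℤ) - j = (m : ℤ) then (1 : ℂ) else 0) =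
    ((N - m : ℕ) : ℂ) := by
  rw [sum_comm]
  have h1 : ∀ j ∈ range N, (∑ i ∈ range N, if (i : ℤ) - j = (m : ℤ) then (1 : ℂ) else 0) =
      if j + m < N then 1 else 0 := by
    intro j _
    have h2 : ∀ i ∈ range N, (if (i : ℤ) - j = (m : ℤ) then (1 : ℂ) else 0) = if i = j + m then 1 else 0 := by
      intro i _
      congr 1
      rw [eq_iff_iff]
      omega
    rw [sum_congr rfl h2, sum_ite_eq']
    simp
  rw [sum_congr rfl h1, sum_ite, sum_const_zero, add_zero, sum_const, nsmul_eq_mul, mul_one]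
  congr 1
  have h3 : (range N).filter (fun j => j + m < N) = range (N - m) := by
    ext j
    simp only [mem_filter, mem_range]
    omega
  rw [h3, card_range]

lemma cnt (N : ℕ) (k : ℤ) : (∑ i ∈ range N, ∑ j ∈ range N, if (i : ℤ) - j = k then (1 : ℂ) else 0) =
    ((N - k.natAbs : ℕ) : ℂ) := by
  rcases Int.natAbs_eq k with h | h
  · rw [h, Int.natAbs_natCast]
    exact cnt_nonneg N _
  · rw [h, Int.natAbs_neg, Int.natAbs_natCast, ← cnt_nonneg N, sum_comm]
    refine sum_congr rfl fun i _ => sum_congr rfl fun j _ => ?_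
    congr 1
    rw [eq_iff_iff]
    omega

lemma int_fourier (n : ℤ) : ∫ x : Cir, (fourier n x : ℂ) ∂AddCircle.haarAddCircle = if n = 0 then 1 else 0 := by
  have h := congrFun (fourierCoeff_fourier (T := (1 : ℝ)) n) 0
  unfold fourierCoeff at h
  simp only [neg_zero, fourier_zero, one_smul] at h
  rw [h, Pi.single_apply]
  simp [eq_comm]

lemma int_dens (ρ : ℤ → ℂ) (N : ℕ) (k : ℤ) :
    ∫ x : Cir, dens ρ N x * fourier k x ∂AddCircle.haarAddCircle = (1 / (N : ℂ)) * ((N - k.natAbs : ℕ) : ℂ) * ρ k := by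
  have h1 : ∀ x : Cir, dens ρ N x * fourier k x = (1 / (N : ℂ)) *
      ∑ i ∈ range N, ∑ j ∈ range N, ρ ((i : ℤ) - j) * fourier (-((i : ℤ) - j) + k) x := by
    intro x
    unfold dens
    rw [mul_assoc, sum_mul]
    congr 1
    refine sum_congr rfl fun i _ => ?_
    rw [sum_mul]
    refine sum_congr rfl fun j _ => ?_
    rw [fourier_add]
    ring
  simp only [h1]
  rw [integral_const_mul, mul_assoc]
  congr 1
  have hint : ∀ n : ℤ, Integrable (fun x : Cir => (fourier n x : ℂ)) AddCircle.haarAddCircle := by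
    intro n
    exact (fourier n).continuous.integrable_of_hasCompactSupport (HasCompactSupport.of_compactSpace _)
  rw [integral_finsetSum]
  swap
  · intro i _
    exact integrable_finsetSum _ fun j _ => (hint _).const_mul _
  rw [← cnt, sum_mul]
  refine sum_congr rfl fun i _ => ?_
  rw [integral_finsetSum]
  swap
  · intro j _
    exact (hint _).const_mul _
  rw [sum_mul]
  refine sum_congr rfl fun j _ => ?_
  rw [integral_const_mul, int_fourier]
  by_cases h : (i : ℤ) - j = k
  · rw [if_pos h, if_pos (by omega), h]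
    ring
  · rw [if_neg h, if_neg (by omega)]
    ring

/-- the Fejér measures -/
noncomputable def fej (ρ : ℤ → ℂ) (N : ℕ) : Measure Cir :=
  AddCircle.haarAddCircle.withDensity fun x => ENNReal.ofReal (dens ρ N x).re

lemma int_fej {ρ : ℤ → ℂ} (h : PosDef ρ) (N : ℕ) (k : ℤ) :
    ∫ x : Cir, (fourier k x : ℂ) ∂fej ρ N = (1 / (N : ℂ)) * ((N - k.natAbs : ℕ) : ℂ) * ρ k := by
  unfold fej
  rw [integral_withDensity_eq_integral_toReal_smul]
  · rw [← int_dens]
    congr 1
    ext x
    rw [ENNReal.toReal_ofReal (dens_real h N x).1, Complex.real_smul, (dens_real h N x).2]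
  · exact (Complex.continuous_re.comp (dens_cont ρ N)).measurable.ennreal_ofReal
  · exact Eventually.of_forall fun x => ENNReal.ofReal_lt_top

lemma fej_univ {ρ : ℤ → ℂ} (h : PosDef ρ) (N : ℕ) : fej ρ N Set.univ ≤ ENNReal.ofReal (ρ 0).re := by
  unfold fej
  rw [withDensity_apply _ MeasurableSet.univ, Measure.restrict_univ, ← ofReal_integral_eq_lintegral_ofReal]
  · apply ENNReal.ofReal_le_ofReal
    have h1 := int_dens ρ N 0
    have h2 : ∫ x : Cir, dens ρ N x * fourier 0 x ∂AddCircle.haarAddCircle =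
        ((∫ x : Cir, (dens ρ N x).re ∂AddCircle.haarAddCircle : ℝ) : ℂ) := by
      rw [← integral_complex_ofReal]
      congr 1
      ext x
      rw [fourier_zero, mul_one, (dens_real h N x).2]
    rw [h2] at h1
    have h3 := congrArg Complex.re h1
    rw [Complex.ofReal_re] at h3
    rw [h3]
    have h0 : 0 ≤ (ρ 0).re := by
      obtain ⟨t, ht, hs⟩ := h 1 fun _ => 1
      simp at hs
      rw [hs]
      simpa using ht
    simp only [Int.natAbs_zero, Nat.sub_zero]
    rcases Nat.eq_zero_or_pos N with hN | hN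
    · subst hN
      simpa using h0
    · have : (N : ℂ) ≠ 0 := by exact_mod_cast hN.ne'
      rw [one_div_mul_cancel this, one_mul]
  · exact (Complex.continuous_re.comp (dens_cont ρ N)).integrable_of_hasCompactSupport
      (HasCompactSupport.of_compactSpace _)
  · exact Eventually.of_forall fun x => (dens_real h N x).1

/-- **Herglotz' theorem.** -/
theorem herglotz {ρ : ℤ → ℂ} (h : PosDef ρ) : ∃ σ : Measure Cir, IsFiniteMeasure σ ∧
    ∀ k : ℤ, ∫ x : Cir, (fourier k x : ℂ) ∂σ = ρ k := by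
  have hfin : ∀ N, IsFiniteMeasure (fej ρ N) := fun N => ⟨lt_of_le_of_lt (fej_univ h N) ENNReal.ofReal_lt_top⟩
  set m : ℕ → FiniteMeasure Cir := fun N => ⟨fej ρ N, hfin N⟩ with hm
  have hK := isCompact_setOfPred_finiteMeasure_le_of_compactSpace Cir (Real.toNNReal (ρ 0).re)
  have hmem : ∀ N, m N ∈ {μ : FiniteMeasure Cir | μ.mass ≤ Real.toNNReal (ρ 0).re} := by
    intro N
    change (m N).mass ≤ _
    have h1 : ((m N).mass : ENNReal) ≤ ENNReal.ofReal (ρ 0).re := by
      rw [FiniteMeasure.ennreal_mass]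
      exact fej_univ h N
    exact ENNReal.coe_le_coe.1 h1
  obtain ⟨σ, -, hσ⟩ := hK.ultrafilter_le_nhds ((hyperfilter ℕ).map m) (by
    rw [le_principal_iff]
    exact Filter.mem_map.2 (Filter.univ_mem' hmem))
  have hlim : Tendsto m (hyperfilter ℕ : Filter ℕ) (𝓝 σ) := hσ
  refine ⟨σ, inferInstance, fun k => ?_⟩
  have h1 := FiniteMeasure.tendsto_iff_forall_integral_tendsto.1 hlim
  have hat : ((hyperfilter ℕ : Ultrafilter ℕ) : Filter ℕ) ≤ atTop := by
    rw [← Nat.cofinite_eq_atTop]
    exact hyperfilter_le_cofinite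
  -- the limit of the coefficients
  have h2 : Tendsto (fun N : ℕ => (1 / (N : ℂ)) * ((N - k.natAbs : ℕ) : ℂ) * ρ k) atTop (𝓝 (ρ k)) := by
    have h3 : Tendsto (fun N : ℕ => (1 : ℂ) - (k.natAbs : ℂ) / (N : ℂ)) atTop (𝓝 (1 - 0)) := by
      apply Tendsto.sub tendsto_const_nhds
      exact tendsto_const_div_atTop_nhds_zero_nat _
    have h4 : (fun N : ℕ => (1 / (N : ℂ)) * ((N - k.natAbs : ℕ) : ℂ) * ρ k) =ᶠ[atTop]
        fun N : ℕ => ((1 : ℂ) - (k.natAbs : ℂ) / (N : ℂ)) * ρ k := by
      filter_upwards [eventually_ge_atTop (k.natAbs + 1)] with N hN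
      have hN0 : (N : ℂ) ≠ 0 := by
        have : 0 < N := by omega
        exact_mod_cast this.ne'
      rw [Nat.cast_sub (by omega)]
      field_simp
    rw [tendsto_congr' h4]
    simpa using h3.mul_const (ρ k)
  have h5 : Tendsto (fun N : ℕ => ∫ x : Cir, (fourier k x : ℂ) ∂(m N : Measure Cir)) (hyperfilter ℕ : Filter ℕ)
      (𝓝 (ρ k)) := by
    refine Tendsto.mono_left ?_ hat
    refine h2.congr fun N => ?_
    exact (int_fej h N k).symm
  -- real and imaginary parts
  have hint : ∀ (μ : FiniteMeasure Cir), Integrable (fun x : Cir => (fourier k x : ℂ)) (μ : Measure Cir) := by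
    intro μ
    exact (fourier k).continuous.integrable_of_hasCompactSupport (HasCompactSupport.of_compactSpace _)
  have h6 : Tendsto (fun N : ℕ => ∫ x : Cir, (fourier k x : ℂ) ∂(m N : Measure Cir)) (hyperfilter ℕ : Filter ℕ)
      (𝓝 (∫ x : Cir, (fourier k x : ℂ) ∂(σ : Measure Cir))) := by
    have hre := h1 (BoundedContinuousFunction.mkOfCompact
      ⟨fun x : Cir => (fourier k x : ℂ).re, Complex.continuous_re.comp (fourier k).continuous⟩)
    have him := h1 (BoundedContinuousFunction.mkOfCompact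
      ⟨fun x : Cir => (fourier k x : ℂ).im, Complex.continuous_im.comp (fourier k).continuous⟩)
    have hd : ∀ μ : FiniteMeasure Cir, ∫ x : Cir, (fourier k x : ℂ) ∂(μ : Measure Cir) =
        ((∫ x : Cir, (fourier k x : ℂ).re ∂(μ : Measure Cir) : ℝ) : ℂ) +
          ((∫ x : Cir, (fourier k x : ℂ).im ∂(μ : Measure Cir) : ℝ) : ℂ) * Complex.I := by
      intro μ
      exact (integral_re_add_im (hint μ)).symm
    simp only [hd]
    apply Tendsto.add
    · exact (Complex.continuous_ofReal.tendsto _).comp hre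
    · exact ((Complex.continuous_ofReal.tendsto _).comp him).mul_const _
  exact tendsto_nhds_unique h6 h5

end Pool.Agent.H614.CW
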