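import Pool.Agent.H614.CW.Ar2
import Pool.Agent.H614.CW.Herg

/-!
Products of values of the Liouville function with positive definite weights.
-/

set_option autoImplicit false

namespace Pool.Agent.H614.CW

open Finset Filter Topology MeasureTheory
open Pool.Agent.Y958.U (LZ LZ_iff LZ_union LZ_bdd LZ_sub LZ_empty FF FF_le)

lemma log_tend : Tendsto (fun X : ℕ => Real.log X) atTop atTop :=
  Real.tendsto_log_atTop.comp tendsto_natCast_atTop_atTop

lemma harm_ge (X : ℕ) : Real.log X ≤ ∑ n ∈ Icc 1 X, (1 : ℝ) / n := by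
  have h := log_add_one_le_harmonic X
  rw [harmonic_eq_sum_Icc] at h
  push_cast at h
  rcases Nat.eq_zero_or_pos X with rfl | hX
  · simp
  · have h0 : (0 : ℝ) < X := by exact_mod_cast hX
    have h1 : Real.log X ≤ Real.log (X + 1) := Real.log_le_log h0 (by linarith)
    simp only [one_div]
    linarith

/-- the harmonic sums of the classes -/
lemma harm_class (Q r : ℕ) (hr : r < Q) (ε : ℝ) (hε : 0 < ε) : ∀ᶠ X : ℕ in atTop,
    |∑ n ∈ (Icc 1 X).filter (fun n => n % Q = r), (1 : ℝ) / n - (1 / (Q : ℝ)) * ∑ n ∈ Icc 1 X, (1 : ℝ) / n| ≤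
      ε * Real.log X := by
  have hQ : 1 ≤ Q := by omega
  have hQ0 : (0 : ℝ) < Q := by exact_mod_cast hQ
  set F : ℕ → ℂ := fun n => (((if n % Q = r then (1 : ℝ) else 0) - 1 / Q : ℝ) : ℂ) with hF
  have hF1 : ∀ n, ‖F n‖ ≤ 1 := by
    intro n
    rw [hF]
    simp only
    rw [Complex.norm_real, Real.norm_eq_abs]
    have h1 : 0 < 1 / (Q : ℝ) := by positivity
    have h2 : 1 / (Q : ℝ) ≤ 1 := by rw [div_le_one hQ0]; exact_mod_cast hQ
    split_ifs <;> rw [abs_le] <;> constructor <;> linarith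
  have hs : ∀ᶠ N : ℕ in atTop, N ∉ (∅ : Set ℕ) → ‖∑ n ∈ Icc 1 N, F n‖ ≤ (ε / 2) * N := by
    filter_upwards [tendsto_natCast_atTop_atTop.eventually_ge_atTop (6 / ε)] with N hN _
    have h1 := class_sum (g := fun _ => 1) (by simp) Q r N hr
    simp only [sum_const, nsmul_eq_mul, mul_one, Nat.card_Icc, Nat.add_sub_cancel] at h1
    have e1 : ∑ n ∈ Icc 1 N, F n = ((((Icc 1 N).filter (fun n => n % Q = r)).card - N / Q : ℝ) : ℂ) := by
      rw [hF, ← Complex.ofReal_sum, sum_sub_distrib, ← sum_filter, sum_const, sum_const, Nat.card_Icc,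
        Nat.add_sub_cancel, nsmul_eq_mul, nsmul_eq_mul]
      congr 1
      ring
    rw [e1, Complex.norm_real, Real.norm_eq_abs]
    have h2 : ((N / Q : ℕ) : ℝ) ≤ N / Q := Nat.cast_div_le
    have h3 : (N : ℝ) / Q ≤ (N / Q : ℕ) + 1 := by
      rw [div_le_iff₀ hQ0]
      have := (Nat.lt_mul_div_succ N hQ).le
      have h4 : (N : ℝ) ≤ Q * ((N / Q : ℕ) + 1) := by exact_mod_cast this
      linarith
    have h5 : (3 : ℝ) ≤ ε / 2 * N := by
      rw [div_le_iff₀ hε] at hN
      linarith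
    rw [abs_le] at h1 ⊢
    constructor <;> linarith
  have h := log_avg ∅ LZ_empty (ε / 2) (by positivity) F hF1 hs (ε / 2) (by positivity)
  filter_upwards [h] with X hX
  have e2 : ∑ n ∈ Icc 1 X, F n / n = ((∑ n ∈ (Icc 1 X).filter (fun n => n % Q = r), (1 : ℝ) / n -
      (1 / (Q : ℝ)) * ∑ n ∈ Icc 1 X, (1 : ℝ) / n : ℝ) : ℂ) := by
    rw [sum_filter, mul_sum, ← sum_sub_distrib, Complex.ofReal_sum]
    refine sum_congr rfl fun n _ => ?_
    rw [hF]
    simp only
    rw [← Complex.ofReal_natCast, ← Complex.ofReal_div]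
    congr 1
    split_ifs
    · ring
    · ring
  rw [e2, Complex.norm_real, Real.norm_eq_abs] at hX
  refine hX.trans (le_of_eq ?_)
  ring

/-- products on residue classes -/
lemma cls_bound {k : ℕ} (hk : 1 ≤ k) (a b : Fin k → ℕ) (hab : Adm a b) (s : ℝ) (hs : |s| ≤ 1) (Q r : ℕ)
    (hr : r < Q) (ε : ℝ) (hε : 0 < ε) : ∀ᶠ X : ℕ in atTop,
      ∑ n ∈ (Icc 1 X).filter (fun n => n % Q = r), (s * FF a b n - gam k) / n ≤ ε * Real.log X := by
  have hg0 := gam_nonneg k
  have hg1 := gam_le_one k hk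
  have hQ : 1 ≤ Q := by omega
  have hQ0 : (0 : ℝ) < Q := by exact_mod_cast hQ
  filter_upwards [class_log hk a b hab Q r hr (ε / 2) (by positivity), harm_class Q r hr (ε / 2) (by positivity),
    log_tend.eventually_ge_atTop 0] with X h1 h2 h3
  have e1 : ∑ n ∈ (Icc 1 X).filter (fun n => n % Q = r), (s * FF a b n - gam k) / n =
      s * (∑ n ∈ (Icc 1 X).filter (fun n => n % Q = r), FF a b n / n) -
        gam k * ∑ n ∈ (Icc 1 X).filter (fun n => n % Q = r), (1 : ℝ) / n := by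
    rw [mul_sum, mul_sum, ← sum_sub_distrib]
    refine sum_congr rfl fun n _ => ?_
    ring
  rw [e1]
  have h4 : s * (∑ n ∈ (Icc 1 X).filter (fun n => n % Q = r), FF a b n / n) ≤ (gam k / Q + ε / 2) * Real.log X := by
    refine (le_abs_self _).trans ?_
    rw [abs_mul]
    refine le_trans ?_ h1
    exact mul_le_of_le_one_left (abs_nonneg _) hs
  have h5 := harm_ge X
  have h6 : (1 / (Q : ℝ)) * Real.log X ≤ (1 / (Q : ℝ)) * ∑ n ∈ Icc 1 X, (1 : ℝ) / n :=
    mul_le_mul_of_nonneg_left h5 (by positivity)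
  rw [abs_le] at h2
  have h7 : gam k * ((1 / (Q : ℝ)) * Real.log X - ε / 2 * Real.log X) ≤
      gam k * ∑ n ∈ (Icc 1 X).filter (fun n => n % Q = r), (1 : ℝ) / n :=
    mul_le_mul_of_nonneg_left (by linarith) hg0
  have h8 : gam k * (ε / 2 * Real.log X) ≤ 1 * (ε / 2 * Real.log X) :=
    mul_le_mul_of_nonneg_right hg1.le (by positivity)
  have h9 : gam k * ((1 / (Q : ℝ)) * Real.log X - ε / 2 * Real.log X) = gam k / Q * Real.log X -
    gam k * (ε / 2 * Real.log X) := by ring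
  nlinarith

lemma poly_mod (F : Polynomial ℤ) (Q n : ℕ) : F.eval (n : ℤ) ≡ F.eval (((n % Q : ℕ) : ℕ) : ℤ) [ZMOD Q] := by
  have h1 : ((n % Q : ℕ) : ℤ) - n ∣ F.eval (((n % Q : ℕ) : ℕ) : ℤ) - F.eval (n : ℤ) :=
    Polynomial.sub_dvd_eval_sub _ _ _
  rw [Int.modEq_iff_dvd]
  refine dvd_trans ?_ h1
  refine ⟨-((n / Q : ℕ) : ℤ), ?_⟩
  have h2 : (Q : ℤ) * (n / Q : ℕ) + (n % Q : ℕ) = n := by exact_mod_cast Nat.div_add_mod n Q
  linarith

/-- frequencies of infinite order, all the integers -/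
lemma irr_one (F : Polynomial ℤ) (hF : 1 ≤ F.natDegree) {k : ℕ} (a b : Fin k → ℕ) (ha : ∀ i, 1 ≤ a i) (x : Cir)
    (hx : x ∉ Tor) :
    Tendsto (fun X : ℕ => SX (FF a b) (fun n => F.eval (n : ℤ)) X x / Real.log X) atTop (𝓝 0) := by
  have h := irr F hF a b ha 1 0 one_pos x hx
  refine h.congr fun X => ?_
  congr 2
  funext n
  rw [Nat.mod_one, if_pos rfl]

lemma FF_zero (a b : Fin 0 → ℕ) (n : ℕ) : FF a b n = 1 := by
  unfold Pool.Agent.Y958.U.FF
  simp

/-- **(2)** weights which are positive definite and not negative -/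
theorem part2 {k : ℕ} (hk : 1 ≤ k) (a b : Fin k → ℕ) (hab : Adm a b) (F : Polynomial ℤ) (hF : 1 ≤ F.natDegree)
    (w : ℤ → ℝ) (hw0 : ∀ m, 0 ≤ w m) (hw : PosDef fun m => (w m : ℂ)) (ε : ℝ) (hε : 0 < ε) :
    ∀ᶠ X : ℕ in atTop, |∑ n ∈ Icc 1 X, FF a b n * w (F.eval (n : ℤ)) / n| ≤
      gam k * ∑ n ∈ Icc 1 X, w (F.eval (n : ℤ)) / n + ε * Real.log X := by
  obtain ⟨σ, hσ, hσw⟩ := herglotz hw
  have hg0 := gam_nonneg k
  have hg1 := gam_le_one k hk
  have main : ∀ s : ℝ, |s| ≤ 1 → ∀ᶠ X : ℕ in atTop,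
      ∑ n ∈ Icc 1 X, (s * FF a b n - gam k) * w (F.eval (n : ℤ)) / n ≤ ε * Real.log X := by
    intro s hs
    refine core σ w hσw hw0 (fun n => F.eval (n : ℤ)) (poly_mod F) (B := 2) ?_ ?_ ?_ ε hε
    · intro n
      have h1 : |s * FF a b n| ≤ 1 := by
        rw [abs_mul]
        exact mul_le_one₀ hs (abs_nonneg _) (FF_le a b n)
      rw [abs_le] at h1 ⊢
      constructor <;> linarith
    · intro x hx
      have h1 := irr_one F hF a b hab.1 x hx
      have h2 := irr_one F hF (k := 0) (fun i => Fin.elim0 i) (fun i => Fin.elim0 i) (fun i => Fin.elim0 i) x hx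
      have h3 := (h1.const_mul (s : ℂ)).sub (h2.const_mul (gam k : ℂ))
      simp only [mul_zero, sub_zero] at h3
      refine h3.congr fun X => ?_
      unfold SX
      rw [mul_div_assoc', mul_div_assoc', ← sub_div, mul_sum, mul_sum, ← sum_sub_distrib]
      congr 1
      refine sum_congr rfl fun n _ => ?_
      rw [FF_zero]
      push_cast
      ring
    · intro Q r _ hr η hη
      exact cls_bound hk a b hab s hs Q r hr η hη
  filter_upwards [main 1 (by simp), main (-1) (by simp)] with X h1 h2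
  have e : ∀ s : ℝ, ∑ n ∈ Icc 1 X, (s * FF a b n - gam k) * w (F.eval (n : ℤ)) / n =
      s * ∑ n ∈ Icc 1 X, FF a b n * w (F.eval (n : ℤ)) / n - gam k * ∑ n ∈ Icc 1 X, w (F.eval (n : ℤ)) / n := by
    intro s
    rw [mul_sum, mul_sum, ← sum_sub_distrib]
    refine sum_congr rfl fun n _ => ?_
    ring
  rw [e] at h1 h2
  rw [abs_le]
  constructor <;> linarith

/-- **(1)** odd orders and pairs, complex weights -/
theorem part1 {k : ℕ} (hk : Odd k ∨ k = 2) (a b : Fin k → ℕ) (hab : Adm a b) (F : Polynomial ℤ)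
    (hF : 1 ≤ F.natDegree) (ρ : ℤ → ℂ) (hρ : PosDef ρ) :
    Tendsto (fun X : ℕ => (∑ n ∈ Icc 1 X, ((FF a b n : ℝ) : ℂ) * ρ (F.eval (n : ℤ)) / n) / Real.log X) atTop
      (𝓝 0) := by
  obtain ⟨σ, hσ, hσw⟩ := herglotz hρ
  have hk1 : 1 ≤ k := by
    rcases hk with h | h
    · exact h.pos
    · omega
  have hg : gam k = 0 := by
    unfold gam
    rcases hk with h | h
    · rw [if_pos h]
    · subst h
      norm_num
  have h := core_all σ (h := FF a b) (B := 1) (FF_le a b) (fun n => F.eval (n : ℤ)) ?_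
  · refine h.congr fun X => ?_
    congr 1
    refine sum_congr rfl fun n _ => ?_
    rw [hσw]
    push_cast
    ring
  · intro x
    by_cases hx : x ∈ Tor
    · obtain ⟨Q, hQ, hQx⟩ := hx
      have hxQ : x ∈ RQ Q := hQx
      have e1 : ∀ X : ℕ, SX (FF a b) (fun n => F.eval (n : ℤ)) X x = ∑ r ∈ range Q,
          ((∑ n ∈ (Icc 1 X).filter (fun n => n % Q = r), FF a b n / n : ℝ) : ℂ) * fourier (F.eval (r : ℤ)) x := by
        intro X
        unfold SX
        rw [← sum_fiberwise_of_maps_to (g := fun n => n % Q) (t := range Q)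
          (fun n _ => mem_range.2 (Nat.mod_lt _ (by omega)))]
        refine sum_congr rfl fun r _ => ?_
        push_cast
        rw [sum_mul]
        refine sum_congr rfl fun n hn => ?_
        rw [mem_filter] at hn
        congr 1
        rw [← hn.2]
        exact fourier_congr hxQ (poly_mod F Q n)
      simp only [e1, sum_div]
      rw [show (0 : ℂ) = ∑ r ∈ range Q, 0 by simp]
      refine tendsto_finsetSum _ fun r hr => ?_
      rw [tendsto_zero_iff_norm_tendsto_zero, tendsto_order]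
      refine ⟨fun c hc => Eventually.of_forall fun X => hc.trans_le (norm_nonneg _), fun c hc => ?_⟩
      filter_upwards [class_log hk1 a b hab Q r (mem_range.1 hr) (c / 2) (by positivity),
        log_tend.eventually_gt_atTop 0] with X h1 h2
      rw [norm_div, norm_mul, norm_fourier, mul_one, Complex.norm_real, Complex.norm_real, Real.norm_eq_abs,
        Real.norm_eq_abs, abs_of_pos h2, div_lt_iff₀ h2]
      rw [hg, zero_div, zero_add] at h1
      refine h1.trans_lt ?_
      have : 0 < c / 2 * Real.log X := by positivity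
      linarith
    · exact irr_one F hF a b hab.1 x hx

end Pool.Agent.H614.CW
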