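import Pool.Agent.H614.CW.Ar3

/-!
Sign patterns of the Liouville function with positive definite weights.
-/

set_option autoImplicit false

namespace Pool.Agent.H614.CW

open Finset Filter Topology MeasureTheory
open Pool.Agent.Y958.U (LZ LZ_iff LZ_union LZ_bdd LZ_sub LZ_empty FF FF_le)

/-- the sign pattern `s` -/
def Pat {k : ℕ} (a b : Fin k → ℕ) (s : Fin k → ℤ) (n : ℕ) : Prop :=
  ∀ i, (-1 : ℤ) ^ ArithmeticFunction.cardFactors (a i * n + b i) = s i

open Classical in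
/-- the indicator function of the pattern -/
noncomputable def ip {k : ℕ} (a b : Fin k → ℕ) (s : Fin k → ℤ) (n : ℕ) : ℝ := if Pat a b s n then 1 else 0

/-- the product over a subset of the forms -/
noncomputable def PE {k : ℕ} (a b : Fin k → ℕ) (E : Finset (Fin k)) (n : ℕ) : ℝ :=
  ∏ i ∈ E, (-1 : ℝ) ^ ArithmeticFunction.cardFactors (a i * n + b i)

/-- the sign of a subset -/
noncomputable def sE {k : ℕ} (s : Fin k → ℤ) (E : Finset (Fin k)) : ℝ := ∏ i ∈ E, (s i : ℝ)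

lemma ip_eq {k : ℕ} (a b : Fin k → ℕ) (s : Fin k → ℤ) (hs : ∀ i, s i = 1 ∨ s i = -1) (n : ℕ) :
    ip a b s n = (1 / 2 ^ k) * ∑ E ∈ (univ : Finset (Fin k)).powerset, sE s E * PE a b E n := by
  have h1 : ∑ E ∈ (univ : Finset (Fin k)).powerset, sE s E * PE a b E n =
      ∏ i : Fin k, (1 + (s i : ℝ) * (-1 : ℝ) ^ ArithmeticFunction.cardFactors (a i * n + b i)) := by
    rw [Finset.prod_one_add]
    refine sum_congr rfl fun E _ => ?_
    unfold sE PE
    rw [prod_mul_distrib]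
  rw [h1]
  have h2 : (1 / 2 ^ k : ℝ) * ∏ i : Fin k, (1 + (s i : ℝ) * (-1 : ℝ) ^ ArithmeticFunction.cardFactors (a i * n + b i)) =
      ∏ i : Fin k, ((1 + (s i : ℝ) * (-1 : ℝ) ^ ArithmeticFunction.cardFactors (a i * n + b i)) / 2) := by
    rw [prod_div_distrib]
    simp only [prod_const, card_univ, Fintype.card_fin]
    ring
  rw [h2]
  unfold ip
  have hv : ∀ i : Fin k, (-1 : ℤ) ^ ArithmeticFunction.cardFactors (a i * n + b i) = 1 ∨
    (-1 : ℤ) ^ ArithmeticFunction.cardFactors (a i * n + b i) = -1 := fun i => neg_one_pow_eq_or _ _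
  have hc : ∀ i : Fin k, (-1 : ℝ) ^ ArithmeticFunction.cardFactors (a i * n + b i) =
    (((-1 : ℤ) ^ ArithmeticFunction.cardFactors (a i * n + b i) : ℤ) : ℝ) := fun i => by push_cast; rfl
  split_ifs with h
  · symm
    apply prod_eq_one
    intro i _
    rw [hc, h i]
    rcases hs i with h3 | h3 <;> rw [h3] <;> norm_num
  · unfold Pat at h
    push Not at h
    obtain ⟨i, hi⟩ := h
    symm
    apply prod_eq_zero (mem_univ i)
    rw [hc]
    rcases hs i with h3 | h3 <;> rcases hv i with h4 | h4 <;> rw [h3, h4] at hi ⊢ <;> first | exact absurd rfl hi | norm_num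

lemma PE_eq {k : ℕ} (a b : Fin k → ℕ) (E : Finset (Fin k)) (n : ℕ) :
    PE a b E n = FF (fun j : Fin E.card => a (E.orderIsoOfFin rfl j)) (fun j => b (E.orderIsoOfFin rfl j)) n := by
  unfold PE Pool.Agent.Y958.U.FF
  rw [← prod_coe_sort E]
  exact (Fintype.prod_equiv (E.orderIsoOfFin rfl).toEquiv _ _ fun j => rfl).symm

lemma Adm_sub {k : ℕ} {a b : Fin k → ℕ} (hab : Adm a b) (E : Finset (Fin k)) :
    Adm (fun j : Fin E.card => a (E.orderIsoOfFin rfl j)) (fun j => b (E.orderIsoOfFin rfl j)) := by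
  refine ⟨fun j => hab.1 _, fun i j hij => hab.2 _ _ fun h => hij ?_⟩
  exact (E.orderIsoOfFin rfl).injective (Subtype.ext h)

lemma sE_abs {k : ℕ} (s : Fin k → ℤ) (hs : ∀ i, s i = 1 ∨ s i = -1) (E : Finset (Fin k)) : |sE s E| = 1 := by
  unfold sE
  rw [abs_prod]
  apply prod_eq_one
  intro i _
  rcases hs i with h | h <;> rw [h] <;> norm_num

/-- the sums over a pattern by the products -/
lemma ip_sum {k : ℕ} (a b : Fin k → ℕ) (s : Fin k → ℤ) (hs : ∀ i, s i = 1 ∨ s i = -1) (ρ : ℕ → ℂ) (X : ℕ) :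
    ∑ n ∈ Icc 1 X, ((ip a b s n : ℝ) : ℂ) * ρ n / n - (1 / 2 ^ k) * ∑ n ∈ Icc 1 X, ρ n / n =
      (1 / 2 ^ k) * ∑ E ∈ (univ : Finset (Fin k)).powerset.erase ∅, (sE s E : ℂ) *
        ∑ n ∈ Icc 1 X, ((PE a b E n : ℝ) : ℂ) * ρ n / n := by
  have h1 : ∑ n ∈ Icc 1 X, ((ip a b s n : ℝ) : ℂ) * ρ n / n =
      (1 / 2 ^ k) * ∑ E ∈ (univ : Finset (Fin k)).powerset, (sE s E : ℂ) *
        ∑ n ∈ Icc 1 X, ((PE a b E n : ℝ) : ℂ) * ρ n / n := by
    simp only [mul_sum]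
    rw [sum_comm]
    refine sum_congr rfl fun n _ => ?_
    rw [ip_eq a b s hs]
    push_cast
    rw [mul_sum, sum_mul, sum_div]
    refine sum_congr rfl fun E _ => ?_
    ring
  rw [h1, ← add_sum_erase _ _ (empty_mem_powerset (univ : Finset (Fin k))), mul_add]
  have h2 : (sE s ∅ : ℂ) * ∑ n ∈ Icc 1 X, ((PE a b ∅ n : ℝ) : ℂ) * ρ n / n = ∑ n ∈ Icc 1 X, ρ n / n := by
    unfold sE PE
    simp
  rw [h2]
  ring

/-- **(3)** patterns of length at most three -/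
theorem part3 {k : ℕ} (hk : k ≤ 3) (a b : Fin k → ℕ) (hab : Adm a b) (s : Fin k → ℤ)
    (hs : ∀ i, s i = 1 ∨ s i = -1) (F : Polynomial ℤ) (hF : 1 ≤ F.natDegree) (ρ : ℤ → ℂ) (hρ : PosDef ρ) :
    Tendsto (fun X : ℕ => (∑ n ∈ Icc 1 X, ((ip a b s n : ℝ) : ℂ) * ρ (F.eval (n : ℤ)) / n -
      (1 / 2 ^ k) * ∑ n ∈ Icc 1 X, ρ (F.eval (n : ℤ)) / n) / Real.log X) atTop (𝓝 0) := by
  simp only [ip_sum a b s hs (fun n => ρ (F.eval (n : ℤ)))]
  have h1 : Tendsto (fun X : ℕ => (1 / 2 ^ k : ℂ) * ∑ E ∈ (univ : Finset (Fin k)).powerset.erase ∅, (sE s E : ℂ) *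
      ((∑ n ∈ Icc 1 X, ((PE a b E n : ℝ) : ℂ) * ρ (F.eval (n : ℤ)) / n) / Real.log X)) atTop (𝓝 0) := by
    have h0 : (0 : ℂ) = (1 / 2 ^ k : ℂ) * ∑ E ∈ (univ : Finset (Fin k)).powerset.erase ∅, (sE s E : ℂ) * 0 := by simp
    rw [h0]
    refine Tendsto.const_mul _ (tendsto_finsetSum _ fun E hE => Tendsto.const_mul _ ?_)
    have hE1 : E ≠ ∅ := ne_of_mem_erase hE
    have hE2 : 1 ≤ E.card := Finset.card_pos.2 (nonempty_iff_ne_empty.2 hE1)
    have hE3 : E.card ≤ 3 := (card_le_univ E).trans (by simpa using hk)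
    simp only [PE_eq]
    apply part1 _ _ _ (Adm_sub hab E) F hF ρ hρ
    interval_cases E.card
    · exact Or.inl (by decide)
    · exact Or.inr rfl
    · exact Or.inl (by decide)
  refine h1.congr fun X => ?_
  simp only [mul_div_assoc, sum_div]

/-- **(4)** patterns of every length: the general bound -/
theorem part4 {k : ℕ} (a b : Fin k → ℕ) (hab : Adm a b) (s : Fin k → ℤ)
    (hs : ∀ i, s i = 1 ∨ s i = -1) (F : Polynomial ℤ) (hF : 1 ≤ F.natDegree) (w : ℤ → ℝ) (hw0 : ∀ m, 0 ≤ w m)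
    (hw : PosDef fun m => (w m : ℂ)) (ε : ℝ) (hε : 0 < ε) :
    ∀ᶠ X : ℕ in atTop, |∑ n ∈ Icc 1 X, ip a b s n * w (F.eval (n : ℤ)) / n -
      (1 / 2 ^ k) * ∑ n ∈ Icc 1 X, w (F.eval (n : ℤ)) / n| ≤
        (1 / 2 ^ k) * (∑ E ∈ (univ : Finset (Fin k)).powerset.erase ∅, gam E.card) *
          ∑ n ∈ Icc 1 X, w (F.eval (n : ℤ)) / n + ε * Real.log X := by
  have hall : ∀ᶠ X : ℕ in atTop, ∀ E ∈ (univ : Finset (Fin k)).powerset.erase ∅,
      |∑ n ∈ Icc 1 X, PE a b E n * w (F.eval (n : ℤ)) / n| ≤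
        gam E.card * ∑ n ∈ Icc 1 X, w (F.eval (n : ℤ)) / n + ε * Real.log X := by
    rw [eventually_all_finset]
    intro E hE
    have hE1 : E ≠ ∅ := ne_of_mem_erase hE
    have hE2 : 1 ≤ E.card := Finset.card_pos.2 (nonempty_iff_ne_empty.2 hE1)
    simp only [PE_eq]
    exact part2 hE2 _ _ (Adm_sub hab E) F hF w hw0 hw ε hε
  filter_upwards [hall, log_tend.eventually_ge_atTop 0] with X hX h0
  have h1 := ip_sum a b s hs (fun n => (w (F.eval (n : ℤ)) : ℂ)) X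
  have h2 : ∑ n ∈ Icc 1 X, ip a b s n * w (F.eval (n : ℤ)) / n - (1 / 2 ^ k) * ∑ n ∈ Icc 1 X, w (F.eval (n : ℤ)) / n =
      (1 / 2 ^ k) * ∑ E ∈ (univ : Finset (Fin k)).powerset.erase ∅, sE s E *
        ∑ n ∈ Icc 1 X, PE a b E n * w (F.eval (n : ℤ)) / n := by
    have := congrArg Complex.re h1
    have h3 : (∑ n ∈ Icc 1 X, ((ip a b s n : ℝ) : ℂ) * (w (F.eval (n : ℤ)) : ℂ) / n - (1 / 2 ^ k) *
        ∑ n ∈ Icc 1 X, (w (F.eval (n : ℤ)) : ℂ) / n) = ((∑ n ∈ Icc 1 X, ip a b s n * w (F.eval (n : ℤ)) / n -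
        (1 / 2 ^ k) * ∑ n ∈ Icc 1 X, w (F.eval (n : ℤ)) / n : ℝ) : ℂ) := by push_cast; rfl
    have h4 : ((1 / 2 ^ k) * ∑ E ∈ (univ : Finset (Fin k)).powerset.erase ∅, (sE s E : ℂ) *
        ∑ n ∈ Icc 1 X, ((PE a b E n : ℝ) : ℂ) * (w (F.eval (n : ℤ)) : ℂ) / n) =
        (((1 / 2 ^ k) * ∑ E ∈ (univ : Finset (Fin k)).powerset.erase ∅, sE s E *
          ∑ n ∈ Icc 1 X, PE a b E n * w (F.eval (n : ℤ)) / n : ℝ) : ℂ) := by push_cast; rfl
    rw [h3, h4, Complex.ofReal_re, Complex.ofReal_re] at this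
    exact this
  rw [h2, abs_mul, abs_of_pos (by positivity : (0 : ℝ) < 1 / 2 ^ k), mul_assoc]
  have h5 : |∑ E ∈ (univ : Finset (Fin k)).powerset.erase ∅, sE s E * ∑ n ∈ Icc 1 X, PE a b E n * w (F.eval (n : ℤ)) / n|
      ≤ (∑ E ∈ (univ : Finset (Fin k)).powerset.erase ∅, gam E.card) * ∑ n ∈ Icc 1 X, w (F.eval (n : ℤ)) / n +
        2 ^ k * (ε * Real.log X) := by
    refine (abs_sum_le_sum_abs _ _).trans ?_
    have h6 : ∑ E ∈ (univ : Finset (Fin k)).powerset.erase ∅, (ε * Real.log X) ≤ 2 ^ k * (ε * Real.log X) := by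
      rw [sum_const, nsmul_eq_mul]
      apply mul_le_mul_of_nonneg_right _ (by positivity)
      have : ((univ : Finset (Fin k)).powerset.erase ∅).card ≤ 2 ^ k := by
        refine (card_le_card (erase_subset _ _)).trans ?_
        rw [card_powerset, card_univ, Fintype.card_fin]
      exact_mod_cast this
    refine le_trans ?_ (add_le_add_right h6 _)
    rw [sum_mul, ← sum_add_distrib]
    refine sum_le_sum fun E hE => ?_
    rw [abs_mul, sE_abs s hs, one_mul]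
    exact hX E hE
  have h7 := mul_le_mul_of_nonneg_left h5 (by positivity : (0 : ℝ) ≤ 1 / 2 ^ k)
  refine h7.trans (le_of_eq ?_)
  have h8 : (2 : ℝ) ^ k ≠ 0 := by positivity
  field_simp

lemma gam_sum_four : ∑ E ∈ (univ : Finset (Fin 4)).powerset.erase ∅, gam E.card = 6 / 7 := by
  have h1 := Finset.sum_powerset_apply_card (fun m => if m = 0 then (0 : ℝ) else gam m) (x := (univ : Finset (Fin 4)))
  have h2 : ∑ E ∈ (univ : Finset (Fin 4)).powerset, (if E.card = 0 then (0 : ℝ) else gam E.card) =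
      ∑ E ∈ (univ : Finset (Fin 4)).powerset.erase ∅, gam E.card := by
    rw [← add_sum_erase _ _ (empty_mem_powerset (univ : Finset (Fin 4)))]
    simp only [card_empty, if_true, zero_add]
    refine sum_congr rfl fun E hE => ?_
    rw [if_neg]
    intro h
    exact ne_of_mem_erase hE (card_eq_zero.1 h)
  rw [← h2, h1]
  have g1 : gam 1 = 0 := by unfold gam; rw [if_pos (by decide)]
  have g2 : gam 2 = 0 := by unfold gam; rw [if_neg (by decide)]; norm_num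
  have g3 : gam 3 = 0 := by unfold gam; rw [if_pos (by decide)]
  have g4 : gam 4 = 6 / 7 := by unfold gam; rw [if_neg (by decide)]; norm_num
  simp only [card_univ, Fintype.card_fin, sum_range_succ, range_zero, sum_empty]
  norm_num [g1, g2, g3, g4]

/-- patterns of length four: at least one seventh of the expected number -/
theorem part4b (a b : Fin 4 → ℕ) (hab : Adm a b) (s : Fin 4 → ℤ)
    (hs : ∀ i, s i = 1 ∨ s i = -1) (F : Polynomial ℤ) (hF : 1 ≤ F.natDegree) (w : ℤ → ℝ) (hw0 : ∀ m, 0 ≤ w m)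
    (hw : PosDef fun m => (w m : ℂ)) (ε : ℝ) (hε : 0 < ε) :
    ∀ᶠ X : ℕ in atTop, (1 / 7) * ((1 / 16) * ∑ n ∈ Icc 1 X, w (F.eval (n : ℤ)) / n) - ε * Real.log X ≤
      ∑ n ∈ Icc 1 X, ip a b s n * w (F.eval (n : ℤ)) / n := by
  filter_upwards [part4 a b hab s hs F hF w hw0 hw ε hε] with X hX
  rw [gam_sum_four, abs_le] at hX
  norm_num at hX ⊢
  linarith [hX.1]

end Pool.Agent.H614.CW
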