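import Pool.Graph.R_seed8.Y958.U.Diag
import Pool.Agent.H614.CW.Core

/-!
From all but few scales to logarithmic density zero, and to logarithmic averages.
-/

set_option autoImplicit false

namespace Pool.Agent.H614.CW

open Finset Filter Topology
open Pool.Agent.Y958.U (LZ LZ_iff ls li ls_eq li_mem li_not LZ_union LZ_bdd ls_nonneg LZ_sub)

lemma li_nonneg (E : Set ℕ) (n : ℕ) : 0 ≤ li E n := by
  classical
  unfold li
  split_ifs <;> positivity

lemma li_le (E : Set ℕ) (n : ℕ) : li E n ≤ 1 / n := by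
  classical
  unfold li
  split_ifs
  · exact le_rfl
  · positivity

open Classical in
/-- blocks of length `D` -/
lemma block_low (E : Set ℕ) (D : ℕ) (hD : 1 ≤ D) (Y : ℕ) :
    (1 / 2 : ℝ) * ls E Y ≤ ∑ N ∈ Ico D (D * (Y + 1)), if N / D ∈ E then (1 : ℝ) / N else 0 := by
  induction Y with
  | zero => simp [ls]
  | succ Y ih =>
    have h1 : ls E (Y + 1) = ls E Y + li E (Y + 1) := by
      rw [ls_eq, ls_eq, sum_Icc_succ_top (by omega)]
    have h2 : ∑ N ∈ Ico D (D * (Y + 1 + 1)), (if N / D ∈ E then (1 : ℝ) / N else 0) =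
        (∑ N ∈ Ico D (D * (Y + 1)), if N / D ∈ E then (1 : ℝ) / N else 0) +
          ∑ N ∈ Ico (D * (Y + 1)) (D * (Y + 1 + 1)), if N / D ∈ E then (1 : ℝ) / N else 0 := by
      rw [sum_Ico_consecutive]
      · nlinarith
      · nlinarith
    rw [h1, h2, mul_add]
    apply add_le_add ih
    have h3 : ∀ N ∈ Ico (D * (Y + 1)) (D * (Y + 1 + 1)), N / D = Y + 1 := by
      intro N hN
      rw [mem_Ico] at hN
      rw [Nat.div_eq_iff (by omega)]
      constructor
      · nlinarith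
      · have : D * (Y + 1 + 1) = (Y + 1) * D + D := by ring
        omega
    have h4 : ∑ N ∈ Ico (D * (Y + 1)) (D * (Y + 1 + 1)), (if N / D ∈ E then (1 : ℝ) / N else 0) =
        ∑ N ∈ Ico (D * (Y + 1)) (D * (Y + 1 + 1)), if Y + 1 ∈ E then (1 : ℝ) / N else 0 := by
      refine sum_congr rfl fun N hN => ?_
      rw [h3 N hN]
    rw [h4]
    have hD0 : (0 : ℝ) < D := by exact_mod_cast hD
    by_cases hE : Y + 1 ∈ E
    · rw [li_mem hE]
      simp only [if_pos hE]
      have h5 : ∀ N ∈ Ico (D * (Y + 1)) (D * (Y + 1 + 1)), (1 : ℝ) / (D * (Y + 2)) ≤ 1 / N := by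
        intro N hN
        rw [mem_Ico] at hN
        have hN0 : 0 < N := by
          have : 0 < D * (Y + 1) := by positivity
          omega
        apply one_div_le_one_div_of_le (by exact_mod_cast hN0)
        have : N ≤ D * (Y + 1 + 1) := hN.2.le
        calc (N : ℝ) ≤ ((D * (Y + 1 + 1) : ℕ) : ℝ) := by exact_mod_cast this
          _ = D * (Y + 2) := by push_cast; ring
      have h6 := card_nsmul_le_sum _ _ _ h5
      rw [Nat.card_Ico, nsmul_eq_mul] at h6
      have e1 : D * (Y + 1 + 1) - D * (Y + 1) = D := by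
        rw [← Nat.mul_sub]
        simp
      rw [e1] at h6
      refine le_trans ?_ h6
      have e2 : (D : ℝ) * (1 / (D * (Y + 2))) = 1 / (Y + 2) := by field_simp
      rw [e2]
      push_cast
      rw [one_div_mul_one_div, one_div_le_one_div (by positivity) (by positivity)]
      have : (0 : ℝ) ≤ Y := Nat.cast_nonneg Y
      linarith
    · rw [li_not hE]
      simp [if_neg hE]

lemma harm_diff (Y X : ℕ) (h : Y ≤ X) :
    ∑ n ∈ Ioc Y X, (1 : ℝ) / n ≤ 1 + Real.log X - Real.log (Y + 1) := by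
  have h1 : ∑ n ∈ Icc 1 X, (1 : ℝ) / n = ∑ n ∈ Icc 1 Y, (1 : ℝ) / n + ∑ n ∈ Ioc Y X, (1 : ℝ) / n := by
    have e : Icc 1 X = Ioc 0 X := by ext; simp [Nat.succ_le_iff]
    have e' : Icc 1 Y = Ioc 0 Y := by ext; simp [Nat.succ_le_iff]
    rw [e, e', sum_Ioc_consecutive _ (by omega) h]
  have h2 := harm_le X
  have h3 : Real.log (Y + 1) ≤ ∑ n ∈ Icc 1 Y, (1 : ℝ) / n := by
    have := log_add_one_le_harmonic Y
    rw [harmonic_eq_sum_Icc] at this
    push_cast at this
    simpa [one_div] using this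
  linarith

open Classical in
/-- few exceptional scales below every scale: logarithmic density zero -/
theorem LZ_few (E : Set ℕ) (C : ℝ) (h : ∀ J : ℕ, ∃ N₀ : ℕ, ∀ N : ℕ, N₀ ≤ N →
    ∑ i ∈ (Icc 1 J).filter (fun i => N / 2 ^ i ∈ E), (1 : ℝ) / i ≤ C) : LZ E := by
  rw [LZ_iff]
  intro ε hε
  have hC0 : 0 ≤ C := by
    obtain ⟨N₀, h0⟩ := h 0
    have := h0 N₀ le_rfl
    simpa using this
  -- the number of scales
  have hharm : Tendsto (fun J : ℕ => Real.log ((J : ℝ) + 1)) atTop atTop :=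
    Real.tendsto_log_atTop.comp (tendsto_atTop_add_const_right _ _ tendsto_natCast_atTop_atTop)
  obtain ⟨J, hJ⟩ := (hharm.eventually_ge_atTop (4 * (C + 1) / ε)).exists
  set H : ℝ := ∑ i ∈ Icc 1 J, (1 : ℝ) / i with hH
  have hH1 : 4 * (C + 1) / ε ≤ H := by
    refine hJ.trans ?_
    have := log_add_one_le_harmonic J
    rw [harmonic_eq_sum_Icc] at this
    push_cast at this
    rw [hH]
    simpa [one_div] using this
  have hHpos : 0 < H := lt_of_lt_of_le (by positivity) hH1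
  obtain ⟨N₀, hN₀⟩ := h J
  have hlog : Tendsto (fun X : ℕ => Real.log X) atTop atTop :=
    Real.tendsto_log_atTop.comp tendsto_natCast_atTop_atTop
  set K₁ : ℝ := (2 / H) * (H * (1 + Real.log N₀) + C) + (1 + (J + 1) * Real.log 2) with hK₁
  obtain ⟨X₁, hX₁⟩ := eventually_atTop.1 (hlog.eventually_ge_atTop (2 * K₁ / ε))
  refine ⟨X₁ + 2 ^ (J + 1) + 1, fun X hX => ?_⟩
  have hpow : 2 ^ (J + 1) = 2 * 2 ^ J := by ring
  have hJpos : 0 < 2 ^ J := by positivity
  set Y := X / 2 ^ J - 1 with hY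
  have hXJ : 2 ≤ X / 2 ^ J := by
    rw [Nat.le_div_iff_mul_le hJpos]
    omega
  have hY1 : Y + 1 = X / 2 ^ J := by omega
  have hXlog := hX₁ X (by omega)
  -- the double sum
  have hup : ∑ N ∈ Icc 1 X, (1 : ℝ) / N * ∑ i ∈ (Icc 1 J).filter (fun i => N / 2 ^ i ∈ E), (1 : ℝ) / i ≤
      H * (1 + Real.log N₀) + C * (1 + Real.log X) := by
    have h1 : ∀ N ∈ Icc 1 X, (1 : ℝ) / N * ∑ i ∈ (Icc 1 J).filter (fun i => N / 2 ^ i ∈ E), (1 : ℝ) / i ≤
        (if N ∈ Icc 1 N₀ then H * (1 / (N : ℝ)) else 0) + C * (1 / N) := by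
      intro N hN
      have hs : ∑ i ∈ (Icc 1 J).filter (fun i => N / 2 ^ i ∈ E), (1 : ℝ) / i ≤ H :=
        sum_le_sum_of_subset_of_nonneg (filter_subset _ _) fun i _ _ => by positivity
      by_cases hc : N ∈ Icc 1 N₀
      · rw [if_pos hc, mul_comm]
        have : 0 ≤ C * (1 / (N : ℝ)) := by positivity
        have := mul_le_mul_of_nonneg_right hs (by positivity : (0 : ℝ) ≤ 1 / N)
        linarith
      · rw [if_neg hc, zero_add, mul_comm]
        apply mul_le_mul_of_nonneg_right _ (by positivity)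
        apply hN₀
        rw [mem_Icc] at hc hN
        omega
    refine (sum_le_sum h1).trans ?_
    rw [sum_add_distrib, ← mul_sum]
    apply add_le_add
    · rw [← sum_filter, ← mul_sum]
      apply mul_le_mul_of_nonneg_left _ hHpos.le
      refine le_trans ?_ (harm_le N₀)
      apply sum_le_sum_of_subset_of_nonneg
      · intro n hn
        exact (mem_filter.1 hn).2
      · intro i _ _
        positivity
    · exact mul_le_mul_of_nonneg_left (harm_le X) hC0
  have hlow : H * ((1 / 2) * ls E Y) ≤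
      ∑ N ∈ Icc 1 X, (1 : ℝ) / N * ∑ i ∈ (Icc 1 J).filter (fun i => N / 2 ^ i ∈ E), (1 : ℝ) / i := by
    have e1 : ∑ N ∈ Icc 1 X, (1 : ℝ) / N * ∑ i ∈ (Icc 1 J).filter (fun i => N / 2 ^ i ∈ E), (1 : ℝ) / i =
        ∑ i ∈ Icc 1 J, (1 : ℝ) / i * ∑ N ∈ Icc 1 X, if N / 2 ^ i ∈ E then (1 : ℝ) / N else 0 := by
      simp only [sum_filter, mul_sum]
      rw [sum_comm]
      refine sum_congr rfl fun i _ => sum_congr rfl fun N _ => ?_
      split_ifs <;> ring
    rw [e1, hH, sum_mul]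
    refine sum_le_sum fun i hi => ?_
    rw [mem_Icc] at hi
    apply mul_le_mul_of_nonneg_left _ (by positivity)
    refine (block_low E (2 ^ i) Nat.one_le_two_pow Y).trans ?_
    apply sum_le_sum_of_subset_of_nonneg
    · intro N hN
      rw [mem_Ico] at hN
      rw [mem_Icc]
      constructor
      · exact Nat.one_le_two_pow.trans hN.1
      · have h5 : 2 ^ i * (Y + 1) ≤ X := by
          rw [hY1]
          calc 2 ^ i * (X / 2 ^ J) ≤ 2 ^ J * (X / 2 ^ J) := Nat.mul_le_mul_right _ (Nat.pow_le_pow_right (by norm_num) hi.2)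
            _ ≤ X := Nat.mul_div_le X _
        omega
    · intro N _ _
      split_ifs <;> positivity
  have hY0 : Y ≤ X := by
    have := Nat.div_le_self X (2 ^ J)
    omega
  have htail : ls E X ≤ ls E Y + (1 + (J + 1) * Real.log 2) := by
    have e1 : ls E X = ls E Y + ∑ n ∈ Ioc Y X, li E n := by
      rw [ls_eq, ls_eq]
      have e : Icc 1 X = Ioc 0 X := by ext; simp [Nat.succ_le_iff]
      have e' : Icc 1 Y = Ioc 0 Y := by ext; simp [Nat.succ_le_iff]
      rw [e, e', sum_Ioc_consecutive _ (by omega) hY0]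
    rw [e1]
    apply add_le_add le_rfl
    refine (sum_le_sum fun n _ => li_le E n).trans ((harm_diff Y X hY0).trans ?_)
    have h6 : X < 2 ^ (J + 1) * (Y + 1) := by
      rw [hY1, hpow]
      have := Nat.lt_mul_div_succ X hJpos
      nlinarith
    have hX0 : (0 : ℝ) < X := by exact_mod_cast (by omega : 0 < X)
    have h7 : Real.log X ≤ Real.log ((2 : ℝ) ^ (J + 1) * (Y + 1)) := by
      apply Real.log_le_log hX0
      exact_mod_cast h6.le
    rw [Real.log_mul (by positivity) (by positivity), Real.log_pow] at h7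
    push_cast at h7
    linarith
  -- conclusion
  have h8 : ls E Y ≤ (2 / H) * (H * (1 + Real.log N₀) + C * (1 + Real.log X)) := by
    have h9 := hlow.trans hup
    rw [div_mul_eq_mul_div, le_div_iff₀ hHpos]
    linarith
  have h10 : (2 / H) * C ≤ ε / 2 := by
    rw [div_mul_eq_mul_div, div_le_iff₀ hHpos]
    rw [div_le_iff₀ hε] at hH1
    nlinarith
  have hlX : 0 ≤ Real.log X := Real.log_natCast_nonneg _
  have h11 : (2 / H) * (H * (1 + Real.log N₀) + C * (1 + Real.log X)) =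
      (2 / H) * (H * (1 + Real.log N₀) + C) + (2 / H) * C * Real.log X := by ring
  have h12 : (2 / H) * C * Real.log X ≤ ε / 2 * Real.log X := mul_le_mul_of_nonneg_right h10 hlX
  have h13 : K₁ ≤ ε / 2 * Real.log X := by
    rw [div_le_iff₀ hε] at hXlog
    linarith
  rw [h11] at h8
  linarith

/-- Abel summation -/
lemma abel_c (F : ℕ → ℂ) (X : ℕ) : ∑ n ∈ Icc 1 X, F n / n =
    ∑ N ∈ Icc 1 X, (∑ n ∈ Icc 1 N, F n) * (1 / ((N : ℂ) * (N + 1))) + (∑ n ∈ Icc 1 X, F n) / (X + 1) := by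
  induction X with
  | zero => simp
  | succ X ih =>
    rw [sum_Icc_succ_top (by omega), sum_Icc_succ_top (by omega), ih, sum_Icc_succ_top (by omega)]
    push_cast
    have h1 : (X : ℂ) + 1 ≠ 0 := by exact_mod_cast Nat.succ_ne_zero X
    have h2 : (X : ℂ) + 1 + 1 ≠ 0 := by exact_mod_cast Nat.succ_ne_zero (X + 1)
    field_simp
    ring

/-- from almost all scales to logarithmic averages -/
lemma log_avg (E : Set ℕ) (hE : LZ E) (κ : ℝ) (hκ : 0 ≤ κ) (F : ℕ → ℂ) (hF : ∀ n, ‖F n‖ ≤ 1)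
    (h : ∀ᶠ N : ℕ in atTop, N ∉ E → ‖∑ n ∈ Icc 1 N, F n‖ ≤ κ * N) (η : ℝ) (hη : 0 < η) :
    ∀ᶠ X : ℕ in atTop, ‖∑ n ∈ Icc 1 X, F n / n‖ ≤ (κ + η) * Real.log X := by
  classical
  obtain ⟨N₀, h⟩ := eventually_atTop.1 h
  have hE1 : LZ (E ∪ {n | n < N₀}) := LZ_union hE (LZ_bdd _ N₀ fun n hn => hn)
  obtain ⟨X₁, hX₁⟩ := (LZ_iff _).1 hE1 (η / 2) (by positivity)
  have hlog : Tendsto (fun X : ℕ => Real.log X) atTop atTop :=
    Real.tendsto_log_atTop.comp tendsto_natCast_atTop_atTop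
  filter_upwards [eventually_ge_atTop X₁, hlog.eventually_ge_atTop (2 * (κ + 1) / η)] with X hX h2
  have h1 := hX₁ X hX
  have hS : ∀ N : ℕ, ‖∑ n ∈ Icc 1 N, F n‖ ≤ N := by
    intro N
    refine (norm_sum_le _ _).trans ((sum_le_sum fun n _ => hF n).trans ?_)
    simp
  rw [abel_c]
  have h3 : ‖(∑ n ∈ Icc 1 X, F n) / ((X : ℂ) + 1)‖ ≤ 1 := by
    rw [norm_div]
    have e1 : ‖(X : ℂ) + 1‖ = X + 1 := by
      have : ((X : ℂ) + 1) = ((X + 1 : ℕ) : ℂ) := by push_cast; rfl
      rw [this, Complex.norm_natCast]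
      push_cast; rfl
    rw [e1, div_le_one (by positivity)]
    exact (hS X).trans (by linarith)
  have h4 : ‖∑ N ∈ Icc 1 X, (∑ n ∈ Icc 1 N, F n) * (1 / ((N : ℂ) * (N + 1)))‖ ≤
      ∑ N ∈ Icc 1 X, (κ * (1 / N) + li (E ∪ {n | n < N₀}) N) := by
    refine (norm_sum_le _ _).trans (sum_le_sum fun N hN => ?_)
    rw [mem_Icc] at hN
    have hN0 : (0 : ℝ) < N := by exact_mod_cast hN.1
    have e1 : ‖(1 : ℂ) / ((N : ℂ) * (N + 1))‖ = 1 / ((N : ℝ) * (N + 1)) := by
      have : ((N : ℂ) * (N + 1)) = ((N * (N + 1) : ℕ) : ℂ) := by push_cast; rfl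
      rw [norm_div, norm_one, this, Complex.norm_natCast]
      push_cast; rfl
    rw [norm_mul, e1]
    by_cases hm : N ∈ E ∪ {n | n < N₀}
    · rw [li_mem hm]
      have h5 : ‖∑ n ∈ Icc 1 N, F n‖ * (1 / ((N : ℝ) * (N + 1))) ≤ N * (1 / ((N : ℝ) * (N + 1))) :=
        mul_le_mul_of_nonneg_right (hS N) (by positivity)
      have h6 : (N : ℝ) * (1 / ((N : ℝ) * (N + 1))) = 1 / (N + 1) := by field_simp
      have h7 : (1 : ℝ) / (N + 1) ≤ 1 / N := one_div_le_one_div_of_le hN0 (by linarith)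
      have h8 : 0 ≤ κ * (1 / (N : ℝ)) := by positivity
      linarith
    · rw [li_not hm, add_zero]
      have h5 : N₀ ≤ N := by
        by_contra hc
        exact hm (Or.inr (by simpa using hc))
      have h6 := h N h5 (fun hc => hm (Or.inl hc))
      calc ‖∑ n ∈ Icc 1 N, F n‖ * (1 / ((N : ℝ) * (N + 1))) ≤ (κ * N) * (1 / ((N : ℝ) * (N + 1))) :=
            mul_le_mul_of_nonneg_right h6 (by positivity)
        _ = κ * (1 / (N + 1)) := by field_simp
        _ ≤ κ * (1 / N) := mul_le_mul_of_nonneg_left (one_div_le_one_div_of_le hN0 (by linarith)) hκ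
  rw [sum_add_distrib, ← mul_sum, ← ls_eq] at h4
  have h5 := harm_le X
  have h6 : κ * ∑ N ∈ Icc 1 X, (1 : ℝ) / N ≤ κ * (1 + Real.log X) := mul_le_mul_of_nonneg_left h5 hκ
  have h7 : κ + 1 ≤ η / 2 * Real.log X := by
    rw [div_le_iff₀ hη] at h2
    linarith
  refine (norm_add_le _ _).trans ?_
  linarith

end Pool.Agent.H614.CW
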