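import Pool.Agent.H614.CW.Rec

/-!
Recurrence along sets with a lower bound for positive definite weights: the conclusion.
-/

set_option autoImplicit false

namespace Pool.Agent.H614.CW

open Finset Filter Topology MeasureTheory
open Pool.Agent.Y958.U (LZ LZ_iff LZ_union LZ_bdd LZ_sub LZ_empty FF FF_le)

lemma avg_pt (x : Cir) : Tendsto (fun L : ℕ => (1 / (L : ℂ)) * ∑ l ∈ range L, (fourier (l : ℤ) x : ℂ)) atTop
    (𝓝 ((RQ 1).indicator (fun _ => (1 : ℂ)) x)) := by
  by_cases hx : x ∈ RQ 1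
  · rw [Set.indicator_of_mem hx]
    refine tendsto_const_nhds.congr' ?_
    filter_upwards [eventually_ge_atTop 1] with L hL
    have hL0 : (L : ℂ) ≠ 0 := by exact_mod_cast (by omega : L ≠ 0)
    have h3 : ∀ l ∈ range L, (fourier (l : ℤ) x : ℂ) = 1 := by
      intro l _
      rw [fourier_congr hx (show (l : ℤ) ≡ 0 [ZMOD (1 : ℕ)] from by simp [Int.modEq_iff_dvd]), fourier_zero]
    rw [sum_congr rfl h3, sum_const, card_range, nsmul_eq_mul]
    field_simp
  · rw [Set.indicator_of_notMem hx]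
    have hz := fourier_not_RQ hx
    set z : ℂ := (fourier ((1 : ℕ) : ℤ) x : ℂ) with hzd
    have h3 : ∀ L : ℕ, ∑ l ∈ range L, (fourier (l : ℤ) x : ℂ) = (z ^ L - 1) / (z - 1) := by
      intro L
      rw [← geom_sum_eq hz]
      refine sum_congr rfl fun l _ => ?_
      rw [hzd, show (l : ℤ) = ((1 : ℕ) : ℤ) * l by push_cast; ring, fourier_mul_int, zpow_natCast]
    have hz1 : ‖z‖ = 1 := norm_fourier _ _
    have hz0 : 0 < ‖z - 1‖ := norm_pos_iff.2 (sub_ne_zero.2 hz)
    rw [tendsto_zero_iff_norm_tendsto_zero]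
    have h4 : Tendsto (fun L : ℕ => (2 / ‖z - 1‖) / (L : ℝ)) atTop (𝓝 0) :=
      tendsto_const_div_atTop_nhds_zero_nat _
    refine squeeze_zero (fun _ => norm_nonneg _) (fun L => ?_) h4
    rw [h3, norm_mul, norm_div, norm_div, norm_one, Complex.norm_natCast]
    have h5 : ‖z ^ L - 1‖ ≤ 2 := by
      refine (norm_sub_le _ _).trans ?_
      rw [norm_pow, hz1, one_pow, norm_one]
      norm_num
    rw [one_div, inv_mul_eq_div]
    apply div_le_div_of_nonneg_right _ (Nat.cast_nonneg _)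
    exact div_le_div_of_nonneg_right h5 hz0.le

/-- square means -/
lemma mean_sq (σ : Measure Cir) [IsFiniteMeasure σ] :
    Tendsto (fun L : ℕ => (1 / (L : ℂ) ^ 2) * ∑ i ∈ range L, ∑ j ∈ range L,
      ∫ x, (fourier ((i : ℤ) - j) x : ℂ) ∂σ) atTop (𝓝 ((σ.real (RQ 1) : ℝ) : ℂ)) := by
  set g : ℕ → Cir → ℂ := fun L x => (1 / (L : ℂ)) * ∑ l ∈ range L, (fourier (l : ℤ) x : ℂ) with hg
  have hgn : ∀ L x, ‖g L x‖ ≤ 1 := by
    intro L x
    rw [hg]
    simp only
    rw [norm_mul]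
    have h2 : ‖∑ l ∈ range L, (fourier (l : ℤ) x : ℂ)‖ ≤ L := by
      refine (norm_sum_le _ _).trans ?_
      simp only [norm_fourier]
      simp
    rcases Nat.eq_zero_or_pos L with hL | hL
    · subst hL; simp
    · have hL0 : (0 : ℝ) < L := by exact_mod_cast hL
      rw [norm_div, norm_one, Complex.norm_natCast, one_div, inv_mul_le_iff₀ hL0, mul_one]
      exact h2
  have h1 : ∀ L : ℕ, (1 / (L : ℂ) ^ 2) * ∑ i ∈ range L, ∑ j ∈ range L, ∫ x, (fourier ((i : ℤ) - j) x : ℂ) ∂σ =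
      ∫ x, g L x * (starRingEnd ℂ) (g L x) ∂σ := by
    intro L
    have e1 : ∀ x, g L x * (starRingEnd ℂ) (g L x) = (1 / (L : ℂ) ^ 2) * ∑ i ∈ range L, ∑ j ∈ range L,
        (fourier ((i : ℤ) - j) x : ℂ) := by
      intro x
      rw [hg]
      simp only
      rw [map_mul, map_sum, map_div₀, map_one, Complex.conj_natCast]
      have e2 : ∀ i j : ℕ, (fourier ((i : ℤ) - j) x : ℂ) = fourier (i : ℤ) x * (starRingEnd ℂ) (fourier (j : ℤ) x : ℂ) := by
        intro i j
        rw [← fourier_neg, ← fourier_add, sub_eq_add_neg]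
      simp only [e2]
      rw [← sum_mul_sum]
      ring
    simp only [e1]
    rw [integral_const_mul, integral_finsetSum]
    · congr 1
      refine sum_congr rfl fun i _ => ?_
      rw [integral_finsetSum]
      intro j _
      exact int_fourier_fin σ _
    · intro i _
      apply integrable_finsetSum
      intro j _
      exact int_fourier_fin σ _
  simp only [h1]
  have h2 : ((σ.real (RQ 1) : ℝ) : ℂ) = ∫ x, (RQ 1).indicator (fun _ => (1 : ℂ)) x *
      (starRingEnd ℂ) ((RQ 1).indicator (fun _ => (1 : ℂ)) x) ∂σ := by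
    have e3 : ∀ x, (RQ 1).indicator (fun _ => (1 : ℂ)) x * (starRingEnd ℂ) ((RQ 1).indicator (fun _ => (1 : ℂ)) x) =
        (RQ 1).indicator (fun _ => (1 : ℂ)) x := by
      intro x
      by_cases hx : x ∈ RQ 1
      · rw [Set.indicator_of_mem hx]
        simp
      · rw [Set.indicator_of_notMem hx]
        simp
    simp only [e3]
    rw [integral_indicator (RQ_meas 1), setIntegral_const, Complex.real_smul, mul_one]
  rw [h2]
  apply tendsto_integral_of_dominated_convergence (fun _ => (1 : ℝ))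
  · intro L
    refine Continuous.aestronglyMeasurable ?_
    have : Continuous (g L) := by
      rw [hg]
      fun_prop
    exact this.mul (Complex.continuous_conj.comp this)
  · exact integrable_const _
  · intro L
    refine Eventually.of_forall fun x => ?_
    rw [norm_mul, RCLike.norm_conj]
    exact mul_le_one₀ (hgn L x) (norm_nonneg _) (hgn L x)
  · refine Eventually.of_forall fun x => ?_
    exact (avg_pt x).mul ((Complex.continuous_conj.tendsto _).comp (avg_pt x))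

/-- the polynomial is eventually positive -/
lemma ev_pos (F : Polynomial ℤ) (hF : 1 ≤ F.natDegree) (hlead : 0 < F.leadingCoeff) :
    ∀ᶠ n : ℕ in atTop, 0 < F.eval (n : ℤ) := by
  have h1 := Polynomial.tendsto_atTop_of_leadingCoeff_nonneg (F.map (Int.castRingHom ℝ)) (by
    rw [Polynomial.degree_map_eq_of_injective (RingHom.injective_int _)]
    exact Polynomial.natDegree_pos_iff_degree_pos.1 hF) (by
    rw [Polynomial.leadingCoeff_map_of_injective (RingHom.injective_int _), eq_intCast]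
    exact_mod_cast hlead.le)
  have h2 := h1.comp (tendsto_natCast_atTop_atTop (R := ℝ))
  filter_upwards [h2.eventually_gt_atTop 0] with n hn
  simp only [Function.comp_apply] at hn
  rw [Polynomial.eval_map, Polynomial.eval₂_at_natCast] at hn
  simpa using hn

open Classical in
/-- the indicator function of a set -/
noncomputable def iS (S : Set ℕ) (n : ℕ) : ℝ := if n ∈ S then 1 else 0

/-- the set `S` has a lower bound for the positive definite weights along `F` -/
def Lower (S : Set ℕ) (F : Polynomial ℤ) (c : ℝ) : Prop :=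
  ∀ w : ℤ → ℝ, (∀ m, 0 ≤ w m) → PosDef (fun m => (w m : ℂ)) → ∀ ε : ℝ, 0 < ε → ∀ᶠ X : ℕ in atTop,
    c * ∑ n ∈ Icc 1 X, w (F.eval (n : ℤ)) / n - ε * Real.log X ≤ ∑ n ∈ Icc 1 X, iS S n * w (F.eval (n : ℤ)) / n

/-- recurrence for positive definite weights -/
theorem rec_exists (S : Set ℕ) (c : ℝ) (hc : 0 < c) (F : Polynomial ℤ) (hF : 1 ≤ F.natDegree)
    (hlead : 0 < F.leadingCoeff) (hint : ∀ Q : ℕ, 1 ≤ Q → ∃ r : ℤ, (Q : ℤ) ∣ F.eval r) (hS : Lower S F c)
    (w : ℤ → ℝ) (hw0 : ∀ m, 0 ≤ w m) (hw : PosDef (fun m => (w m : ℂ))) (δ : ℝ) (hδ : 0 < δ)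
    (hmean : ∀ L : ℕ, 1 ≤ L → δ * (L : ℝ) ^ 2 ≤ ∑ i ∈ range L, ∑ j ∈ range L, w ((i : ℤ) - j)) :
    ∃ n : ℕ, 1 ≤ n ∧ n ∈ S ∧ 0 < F.eval (n : ℤ) ∧ 0 < w (F.eval (n : ℤ)) := by
  obtain ⟨σ, hσ, hσw⟩ := herglotz hw
  have hpos : δ ≤ σ.real (RQ 1) := by
    have h1 := mean_sq σ
    simp only [hσw] at h1
    have h2 := (Complex.continuous_re.tendsto _).comp h1
    rw [Complex.ofReal_re] at h2
    refine ge_of_tendsto h2 ?_
    filter_upwards [eventually_ge_atTop 1] with L hL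
    have hL0 : (0 : ℝ) < L := by exact_mod_cast hL
    have e1 : (1 / (L : ℂ) ^ 2) * ∑ i ∈ range L, ∑ j ∈ range L, ((w ((i : ℤ) - j) : ℝ) : ℂ) =
        (((1 / (L : ℝ) ^ 2) * ∑ i ∈ range L, ∑ j ∈ range L, w ((i : ℤ) - j) : ℝ) : ℂ) := by
      push_cast
      rfl
    simp only [Function.comp_apply]
    rw [e1, Complex.ofReal_re, one_div, inv_mul_eq_div, le_div_iff₀ (by positivity)]
    exact hmean L hL
  obtain ⟨κ, hκ, hlow⟩ := low σ w hσw hw0 F hF hint (hδ.trans_le hpos)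
  by_contra hno
  push Not at hno
  obtain ⟨n₀, hn₀⟩ := eventually_atTop.1 (ev_pos F hF hlead)
  -- the sum over `S` is bounded
  have hb : ∀ X : ℕ, ∑ n ∈ Icc 1 X, iS S n * w (F.eval (n : ℤ)) / n ≤ ∑ n ∈ range n₀, w (F.eval (n : ℤ)) := by
    intro X
    have h1 : ∀ n ∈ Icc 1 X, iS S n * w (F.eval (n : ℤ)) / n ≤ if n ∈ range n₀ then w (F.eval (n : ℤ)) else 0 := by
      intro n hn
      have hn1 := (mem_Icc.1 hn).1
      have hn2 : (1 : ℝ) ≤ n := by exact_mod_cast hn1
      unfold iS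
      split_ifs with h2 h3 h3
      · rw [one_mul]
        exact div_le_self (hw0 _) hn2
      · have h4 : n₀ ≤ n := by simpa using h3
        have h5 := hno n hn1 h2 (hn₀ n h4)
        rw [le_antisymm h5 (hw0 _)]
        simp
      · simp only [zero_mul, zero_div]
        exact hw0 _
      · simp
    refine (sum_le_sum h1).trans ?_
    rw [← sum_filter]
    apply sum_le_sum_of_subset_of_nonneg
    · intro n hn
      exact (mem_filter.1 hn).2
    · intro n _ _
      exact hw0 _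
  obtain ⟨X, hX1, hX2, hX3⟩ := ((hS w hw0 hw (c * κ / 2) (by positivity)).and (hlow.and
    (log_tend.eventually_gt_atTop ((∑ n ∈ range n₀, w (F.eval (n : ℤ))) / (c * κ / 2))))).exists
  have h6 := hb X
  have h7 : c * (κ * Real.log X) ≤ c * ∑ n ∈ Icc 1 X, w (F.eval (n : ℤ)) / n := mul_le_mul_of_nonneg_left hX2 hc.le
  rw [div_lt_iff₀ (by positivity)] at hX3
  linarith

/-- **Recurrence.** -/
theorem recurrence (S : Set ℕ) (c : ℝ) (hc : 0 < c) (F : Polynomial ℤ) (hF : 1 ≤ F.natDegree)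
    (hlead : 0 < F.leadingCoeff) (hint : ∀ Q : ℕ, 1 ≤ Q → ∃ r : ℤ, (Q : ℤ) ∣ F.eval r) (hS : Lower S F c)
    (δ : ℝ) (hδ : 0 < δ) : ∃ (M : ℕ) (κ : ℝ), 0 < κ ∧ ∀ N : ℕ, M ≤ N → ∀ (u : ℤ) (A : Finset ℤ),
      A ⊆ Ioc u (u + N) → δ * N ≤ A.card → ∃ n : ℕ, 1 ≤ n ∧ n ≤ M ∧ n ∈ S ∧ 0 < F.eval (n : ℤ) ∧
        κ * N ≤ (A.filter fun a => a + F.eval (n : ℤ) ∈ A).card := by
  by_contra hno
  push Not at hno
  have h1 : ∀ j : ℕ, ∃ N : ℕ, j + 1 ≤ N ∧ ∃ (u : ℤ) (A : Finset ℤ), A ⊆ Ioc u (u + N) ∧ δ * N ≤ A.card ∧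
      ∀ n : ℕ, 1 ≤ n → n ≤ j + 1 → n ∈ S → 0 < F.eval (n : ℤ) →
        ((A.filter fun a => a + F.eval (n : ℤ) ∈ A).card : ℝ) < 1 / ((j : ℝ) + 1) * N := fun j =>
    hno (j + 1) (1 / ((j : ℝ) + 1)) (by positivity)
  choose N hN u A hA hcard hn using h1
  have hN0 : ∀ j, (0 : ℝ) < N j := fun j => by
    have := hN j
    exact_mod_cast (by omega : 0 < N j)
  set ρ : ℕ → ℤ → ℝ := fun j m => (cor (A j) m : ℝ) / N j with hρ
  have hρ01 : ∀ j m, ρ j m ∈ Set.Icc (0 : ℝ) 1 := by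
    intro j m
    rw [hρ]
    refine ⟨by positivity, ?_⟩
    simp only
    rw [div_le_one (hN0 j)]
    have h2 : cor (A j) m ≤ N j := by
      unfold cor
      refine (card_filter_le _ _).trans ((card_le_card (hA j)).trans ?_)
      rw [Int.card_Ioc]
      omega
    exact_mod_cast h2
  -- the limit
  set U : Ultrafilter ℕ := hyperfilter ℕ with hU
  have hUtop : (U : Filter ℕ) ≤ atTop := Nat.hyperfilter_le_atTop
  have hlim : ∀ m : ℤ, ∃ t ∈ Set.Icc (0 : ℝ) 1, Tendsto (fun j => ρ j m) U (𝓝 t) := by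
    intro m
    have h0 : Set.Icc (0 : ℝ) 1 ∈ U.map fun j => ρ j m := by
      rw [Ultrafilter.mem_map]
      exact Filter.univ_mem' fun j => hρ01 j m
    obtain ⟨t, ht, h2⟩ := isCompact_Icc.ultrafilter_le_nhds' (U.map fun j => ρ j m) h0
    exact ⟨t, ht, h2⟩
  choose w hw01 hwlim using hlim
  have hw0 : ∀ m, 0 ≤ w m := fun m => (hw01 m).1
  have hpd : PosDef (fun m => (w m : ℂ)) := by
    intro L c'
    set q : (ℤ → ℝ) → ℂ := fun v => ∑ i ∈ range L, ∑ j ∈ range L, c' i * (starRingEnd ℂ) (c' j) *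
      ((v ((i : ℤ) - j) : ℝ) : ℂ) with hq
    have hqlim : Tendsto (fun J => q (ρ J)) U (𝓝 (q w)) := by
      rw [hq]
      refine tendsto_finsetSum _ fun i _ => tendsto_finsetSum _ fun j _ => Tendsto.const_mul _ ?_
      exact (Complex.continuous_ofReal.tendsto _).comp (hwlim _)
    have hq1 : ∀ J, ∃ t : ℝ, 0 ≤ t ∧ q (ρ J) = (t : ℂ) := by
      intro J
      refine ⟨(∑ x ∈ Ioc (u J - L) (u J + N J), Complex.normSq (∑ i ∈ range L, c' i *
        (if x + i ∈ A J then (1 : ℂ) else 0))) / N J, ?_, ?_⟩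
      · apply div_nonneg _ (hN0 J).le
        exact sum_nonneg fun x _ => Complex.normSq_nonneg _
      · rw [Complex.ofReal_div, ← cor_posdef (A J) (u J) (N J) (hA J) L c', sum_div]
        refine sum_congr rfl fun i _ => ?_
        rw [sum_div]
        refine sum_congr rfl fun j _ => ?_
        rw [hρ]
        push_cast
        ring
    refine ⟨(q w).re, ?_, ?_⟩
    · have h2 := (Complex.continuous_re.tendsto _).comp hqlim
      refine ge_of_tendsto' h2 fun J => ?_
      obtain ⟨t, ht, e⟩ := hq1 J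
      simp only [Function.comp_apply, e, Complex.ofReal_re]
      exact ht
    · have h3 := (Complex.continuous_im.tendsto _).comp hqlim
      have h4 : (q w).im = 0 := by
        refine tendsto_nhds_unique h3 (tendsto_const_nhds.congr fun J => ?_)
        obtain ⟨t, ht, e⟩ := hq1 J
        simp only [Function.comp_apply, e, Complex.ofReal_im]
      apply Complex.ext
      · simp [hq]
      · rw [Complex.ofReal_im]
        exact h4
  have hmean : ∀ L : ℕ, 1 ≤ L → (δ ^ 2 / 2) * (L : ℝ) ^ 2 ≤ ∑ i ∈ range L, ∑ j ∈ range L, w ((i : ℤ) - j) := by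
    intro L hL
    have h2 : Tendsto (fun J => ∑ i ∈ range L, ∑ j ∈ range L, ρ J ((i : ℤ) - j)) U
        (𝓝 (∑ i ∈ range L, ∑ j ∈ range L, w ((i : ℤ) - j))) :=
      tendsto_finsetSum _ fun i _ => tendsto_finsetSum _ fun j _ => hwlim _
    refine ge_of_tendsto h2 ?_
    have h3 : ∀ᶠ J in (U : Filter ℕ), L ≤ J := hUtop (eventually_ge_atTop L)
    filter_upwards [h3] with J hJ
    have h4 := cor_mean (A J) (u J) (N J) (hA J) L
    have h5 : ∑ i ∈ range L, ∑ j ∈ range L, ρ J ((i : ℤ) - j) =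
        (∑ i ∈ range L, ∑ j ∈ range L, (cor (A J) ((i : ℤ) - j) : ℝ)) / N J := by
      rw [hρ, sum_div]
      refine sum_congr rfl fun i _ => ?_
      rw [sum_div]
    rw [h5, le_div_iff₀ (hN0 J)]
    set T := ∑ i ∈ range L, ∑ j ∈ range L, (cor (A J) ((i : ℤ) - j) : ℝ) with hT
    have hT0 : 0 ≤ T := sum_nonneg fun i _ => sum_nonneg fun j _ => Nat.cast_nonneg _
    have h6 : (L : ℝ) ≤ N J := by
      have := hN J
      exact_mod_cast (by omega : L ≤ N J)
    have h7 : ((L : ℝ) * (δ * N J)) ^ 2 ≤ (N J + L) * T := by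
      refine le_trans ?_ h4
      apply pow_le_pow_left₀ (by have := (hN0 J).le; positivity)
      exact mul_le_mul_of_nonneg_left (hcard J) (Nat.cast_nonneg _)
    have h8 : ((N J : ℝ) + L) * T ≤ (2 * N J) * T := mul_le_mul_of_nonneg_right (by linarith) hT0
    have h9 : (2 * (N J : ℝ)) * (δ ^ 2 / 2 * (L : ℝ) ^ 2 * N J) ≤ (2 * N J) * T := by
      refine le_trans (le_of_eq ?_) (h7.trans h8)
      ring
    exact le_of_mul_le_mul_left h9 (by have := hN0 J; positivity)
  obtain ⟨n, hn1, hnS, hnF, hnw⟩ := rec_exists S c hc F hF hlead hint hS w hw0 hpd (δ ^ 2 / 2) (by positivity) hmean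
  have h10 : w (F.eval (n : ℤ)) ≤ 0 := by
    have h11 : Tendsto (fun j : ℕ => 1 / ((j : ℝ) + 1)) U (𝓝 0) :=
      (tendsto_one_div_add_atTop_nhds_zero_nat (𝕜 := ℝ)).mono_left hUtop
    refine le_of_tendsto_of_tendsto (hwlim (F.eval (n : ℤ))) h11 ?_
    have h3 : ∀ᶠ J in (U : Filter ℕ), n ≤ J := hUtop (eventually_ge_atTop n)
    filter_upwards [h3] with J hJ
    have h12 := hn J n hn1 (by omega) hnS hnF
    rw [hρ]
    simp only
    rw [div_le_iff₀ (hN0 J)]
    exact h12.le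
  linarith

end Pool.Agent.H614.CW
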