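import Pool.Agent.H614.CW.Uni
import Pool.Agent.H614.CW.Rec2

/-!
Level sets of the products and sign patterns: the lower bounds for positive definite weights.
-/

set_option autoImplicit false

namespace Pool.Agent.H614.CW

open Finset Filter Topology MeasureTheory
open Pool.Agent.Y958.U (LZ LZ_iff LZ_union LZ_bdd LZ_sub LZ_empty FF FF_le)

/-- the level sets of the products -/
theorem lower_level {k : ℕ} (hk : 1 ≤ k) (a b : Fin k → ℕ) (hab : Adm a b) (F : Polynomial ℤ) (hF : 1 ≤ F.natDegree)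
    (η : ℤ) (hη : η = 1 ∨ η = -1) :
    Lower {n | ∏ i, (-1 : ℤ) ^ ArithmeticFunction.cardFactors (a i * n + b i) = η} F ((1 - gam k) / 2) := by
  intro w hw0 hw ε hε
  filter_upwards [part2 hk a b hab F hF w hw0 hw ε hε, log_tend.eventually_ge_atTop 0] with X hX h0
  have h1 : ∀ n, iS {n | ∏ i, (-1 : ℤ) ^ ArithmeticFunction.cardFactors (a i * n + b i) = η} n =
      (1 + η * FF a b n) / 2 := by
    intro n
    have hv : ∏ i, (-1 : ℤ) ^ ArithmeticFunction.cardFactors (a i * n + b i) = 1 ∨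
        ∏ i, (-1 : ℤ) ^ ArithmeticFunction.cardFactors (a i * n + b i) = -1 := by
      rw [prod_pow_eq_pow_sum]
      exact neg_one_pow_eq_or _ _
    have hc : FF a b n = ((∏ i, (-1 : ℤ) ^ ArithmeticFunction.cardFactors (a i * n + b i) : ℤ) : ℝ) := by
      unfold Pool.Agent.Y958.U.FF
      push_cast
      rfl
    rw [hc]
    unfold iS
    rw [Set.mem_ofPred_eq]
    rcases hη with h | h <;> rcases hv with h2 | h2 <;> rw [h2, h] <;> norm_num
  have h2 : ∑ n ∈ Icc 1 X, iS {n | ∏ i, (-1 : ℤ) ^ ArithmeticFunction.cardFactors (a i * n + b i) = η} n *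
      w (F.eval (n : ℤ)) / n = (1 / 2) * ∑ n ∈ Icc 1 X, w (F.eval (n : ℤ)) / n +
        (η / 2) * ∑ n ∈ Icc 1 X, FF a b n * w (F.eval (n : ℤ)) / n := by
    rw [mul_sum, mul_sum, ← sum_add_distrib]
    refine sum_congr rfl fun n _ => ?_
    rw [h1]
    ring
  rw [h2]
  have h3 : |(η : ℝ) / 2 * ∑ n ∈ Icc 1 X, FF a b n * w (F.eval (n : ℤ)) / n| ≤
      (1 / 2) * (gam k * ∑ n ∈ Icc 1 X, w (F.eval (n : ℤ)) / n + ε * Real.log X) := by
    rw [abs_mul]
    have : |(η : ℝ) / 2| = 1 / 2 := by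
      rcases hη with h | h <;> rw [h] <;> norm_num
    rw [this]
    exact mul_le_mul_of_nonneg_left hX (by norm_num)
  have h4 := neg_abs_le ((η : ℝ) / 2 * ∑ n ∈ Icc 1 X, FF a b n * w (F.eval (n : ℤ)) / n)
  have h5 : 0 ≤ ε * Real.log X := by positivity
  linarith

lemma ip_iS {k : ℕ} (a b : Fin k → ℕ) (s : Fin k → ℤ) (n : ℕ) : ip a b s n = iS {n | Pat a b s n} n := by
  unfold ip iS
  rfl

/-- the patterns of length at most four -/
theorem lower_pat {k : ℕ} (hk : k ≤ 4) (a b : Fin k → ℕ) (hab : Adm a b) (s : Fin k → ℤ)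
    (hs : ∀ i, s i = 1 ∨ s i = -1) (F : Polynomial ℤ) (hF : 1 ≤ F.natDegree) :
    Lower {n | Pat a b s n} F (1 / 112) := by
  intro w hw0 hw ε hε
  simp only [← ip_iS]
  have hnn : ∀ X : ℕ, 0 ≤ ∑ n ∈ Icc 1 X, w (F.eval (n : ℤ)) / n := fun X =>
    sum_nonneg fun n _ => div_nonneg (hw0 _) (Nat.cast_nonneg _)
  rcases Nat.lt_or_ge k 4 with h | h
  · have hz : ∑ E ∈ (univ : Finset (Fin k)).powerset.erase ∅, gam E.card = 0 := by
      apply sum_eq_zero
      intro E hE
      have hE1 : E ≠ ∅ := ne_of_mem_erase hE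
      have hE2 : 1 ≤ E.card := Finset.card_pos.2 (nonempty_iff_ne_empty.2 hE1)
      have hE3 : E.card ≤ 3 := (card_le_univ E).trans (by simpa using (by omega : k ≤ 3))
      interval_cases E.card
      · unfold gam; rw [if_pos (by decide)]
      · unfold gam; rw [if_neg (by decide)]; norm_num
      · unfold gam; rw [if_pos (by decide)]
    filter_upwards [part4 a b hab s hs F hF w hw0 hw ε hε] with X hX
    rw [hz, mul_zero, zero_mul, zero_add, abs_le] at hX
    have h1 : (1 / 112 : ℝ) ≤ 1 / 2 ^ k := by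
      apply one_div_le_one_div_of_le (by positivity)
      calc (2 : ℝ) ^ k ≤ 2 ^ 3 := pow_le_pow_right₀ (by norm_num) (by omega)
        _ ≤ 112 := by norm_num
    have h2 := mul_le_mul_of_nonneg_right h1 (hnn X)
    linarith [hX.1]
  · obtain rfl : k = 4 := le_antisymm hk h
    filter_upwards [part4b a b hab s hs F hF w hw0 hw ε hε] with X hX
    linarith

end Pool.Agent.H614.CW
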