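import Pool.Agent.H614.CW.Ar3

/-!
Recurrence along sets with a lower bound for positive definite weights.
-/

set_option autoImplicit false

namespace Pool.Agent.H614.CW

open Finset Filter Topology MeasureTheory
open Pool.Agent.Y958.U (LZ LZ_iff LZ_union LZ_bdd LZ_sub LZ_empty FF FF_le)

/-- the lower bound for the weights along a polynomial with roots modulo every `Q` -/
theorem low (σ : Measure Cir) [IsFiniteMeasure σ] (w : ℤ → ℝ) (hw : ∀ m, ∫ x, (fourier m x : ℂ) ∂σ = w m)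
    (hw0 : ∀ m, 0 ≤ w m) (F : Polynomial ℤ) (hF : 1 ≤ F.natDegree)
    (hint : ∀ Q : ℕ, 1 ≤ Q → ∃ r : ℤ, (Q : ℤ) ∣ F.eval r) (hσ : 0 < σ.real (RQ 1)) :
    ∃ κ : ℝ, 0 < κ ∧ ∀ᶠ X : ℕ in atTop, κ * Real.log X ≤ ∑ n ∈ Icc 1 X, w (F.eval (n : ℤ)) / n := by
  set s := σ.real (RQ 1) with hs
  obtain ⟨j, hj⟩ := ((tendsto_order.1 (tor_small σ)).2 (s / 8) (by positivity)).exists
  set Q := j.factorial with hQ
  have hQ1 : 1 ≤ Q := Nat.factorial_pos j
  have hQ0 : (0 : ℝ) < Q := by exact_mod_cast hQ1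
  obtain ⟨r', hr'⟩ := hint Q hQ1
  set r : ℕ := (r' % Q).toNat with hr
  have hQz : (0 : ℤ) < Q := by exact_mod_cast hQ1
  have hr0 : ((r : ℕ) : ℤ) = r' % Q := Int.toNat_of_nonneg (Int.emod_nonneg _ hQz.ne')
  have hrQ : r < Q := by
    have := Int.emod_lt_of_pos r' hQz
    omega
  have hFr : (Q : ℤ) ∣ F.eval (r : ℤ) := by
    have h1 : ((r : ℕ) : ℤ) - r' ∣ F.eval ((r : ℕ) : ℤ) - F.eval r' := Polynomial.sub_dvd_eval_sub _ _ _
    have h2 : (Q : ℤ) ∣ ((r : ℕ) : ℤ) - r' := by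
      rw [hr0]
      refine ⟨-(r' / Q), ?_⟩
      have := Int.mul_ediv_add_emod r' Q
      linarith
    have h3 := dvd_trans h2 h1
    exact (dvd_sub_left hr').1 h3
  set h : ℕ → ℝ := fun n => if n % Q = r then FF (k := 0) (fun i => Fin.elim0 i) (fun i => Fin.elim0 i) n else 0 with hh
  have hh1 : ∀ n, h n = if n % Q = r then 1 else 0 := by
    intro n
    rw [hh]
    simp only [FF_zero]
  have hh2 : ∀ n, 0 ≤ h n ∧ h n ≤ 1 := by
    intro n
    rw [hh1]
    split_ifs <;> norm_num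
  have hB : ∀ n, |h n| ≤ 1 := fun n => by
    rw [abs_of_nonneg (hh2 n).1]
    exact (hh2 n).2
  have hd := dom σ hB (fun n => F.eval (n : ℤ)) Torᶜ Tor_meas.compl (fun x hx =>
    irr F hF (k := 0) (fun i => Fin.elim0 i) (fun i => Fin.elim0 i) (fun i => Fin.elim0 i) Q r hrQ x hx)
  have hd' := (tendsto_order.1 ((tendsto_zero_iff_norm_tendsto_zero).1 hd)).2 (s / (8 * Q)) (by positivity)
  refine ⟨s / (2 * Q), by positivity, ?_⟩
  filter_upwards [hd', harm_class Q r hrQ (1 / (4 * Q)) (by positivity), log_tend.eventually_ge_atTop 4] with X h1 h2 h3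
  have hlogpos : 0 < Real.log X := by linarith
  set f : ℕ → ℤ := fun n => F.eval (n : ℤ) with hf
  set H : ℝ := ∑ n ∈ (Icc 1 X).filter (fun n => n % Q = r), (1 : ℝ) / n with hH
  have hHs : ∑ n ∈ Icc 1 X, h n / n = H := by
    rw [hH, sum_filter]
    refine sum_congr rfl fun n _ => ?_
    rw [hh1]
    split_ifs
    · rfl
    · simp
  have hHlow : 3 / (4 * Q) * Real.log X ≤ H := by
    have q1 := harm_ge X
    have q2 : (1 / (Q : ℝ)) * Real.log X ≤ (1 / (Q : ℝ)) * ∑ n ∈ Icc 1 X, (1 : ℝ) / n :=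
      mul_le_mul_of_nonneg_left q1 (by positivity)
    rw [abs_le] at h2
    have q3 : 3 / (4 * (Q : ℝ)) * Real.log X = (1 / (Q : ℝ)) * Real.log X - 1 / (4 * Q) * Real.log X := by
      field_simp; ring
    linarith
  have hH0 : 0 ≤ H := le_trans (by positivity) hHlow
  -- the decomposition
  have e1 : ((∑ n ∈ Icc 1 X, h n * w (f n) / n : ℝ) : ℂ) = ∫ x, SX h f X x ∂σ := by
    have := SX_int σ h f X Set.univ
    rw [Measure.restrict_univ] at this
    rw [this]
    push_cast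
    refine sum_congr rfl fun n _ => ?_
    rw [hw]
    ring
  have hi : ∀ D : Set Cir, IntegrableOn (SX h f X) D σ := fun D =>
    ((SX_cont h f X).integrable_of_hasCompactSupport (HasCompactSupport.of_compactSpace _)).integrableOn
  have e2 : ∫ x, SX h f X x ∂σ = (∫ x in RQ Q, SX h f X x ∂σ) + (∫ x in Tor \ RQ Q, SX h f X x ∂σ) +
      ∫ x in Torᶜ, SX h f X x ∂σ := by
    rw [← setIntegral_union Set.disjoint_sdiff_right (Tor_meas.diff (RQ_meas Q)) (hi _) (hi _),
      Set.union_sdiff_cancel (RQ_sub_Tor hQ1), ← setIntegral_univ (μ := σ), ← Set.union_compl_self Tor,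
      setIntegral_union disjoint_compl_right Tor_meas.compl (hi _) (hi _)]
  have e3 : (∫ x in RQ Q, SX h f X x ∂σ) = ((H * σ.real (RQ Q) : ℝ) : ℂ) := by
    have e4 : ∀ x ∈ RQ Q, SX h f X x = (H : ℂ) := by
      intro x hx
      unfold SX
      rw [← hHs]
      push_cast
      refine sum_congr rfl fun n _ => ?_
      by_cases hn : n % Q = r
      · have : (fourier (f n) x : ℂ) = 1 := by
          have q1 : f n ≡ 0 [ZMOD Q] := by
            refine (poly_mod F Q n).trans ?_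
            rw [hn]
            exact Int.modEq_zero_iff_dvd.2 hFr
          rw [fourier_congr hx q1, fourier_zero]
        rw [this, mul_one]
      · rw [hh1, if_neg hn]
        simp
    rw [setIntegral_congr_fun (RQ_meas Q) e4, setIntegral_const, Complex.real_smul]
    push_cast
    ring
  have hSX : ∀ x, ‖SX h f X x‖ ≤ H := by
    intro x
    unfold SX
    rw [← hHs]
    refine (norm_sum_le _ _).trans (sum_le_sum fun n _ => ?_)
    rw [norm_mul, norm_fourier, mul_one, Complex.norm_real, Real.norm_eq_abs, abs_of_nonneg]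
    exact div_nonneg (hh2 n).1 (Nat.cast_nonneg _)
  have p1 : H * s ≤ (∫ x in RQ Q, SX h f X x ∂σ).re := by
    rw [e3, Complex.ofReal_re]
    apply mul_le_mul_of_nonneg_left _ hH0
    exact measureReal_mono (RQ_dvd (one_dvd _))
  have p2 : -(H * (s / 8)) ≤ (∫ x in Tor \ RQ Q, SX h f X x ∂σ).re := by
    have q1 : ‖∫ x in Tor \ RQ Q, SX h f X x ∂σ‖ ≤ H * (s / 8) := by
      refine (norm_setIntegral_le_of_norm_le_const (C := H) (measure_lt_top _ _) fun x _ => hSX x).trans ?_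
      exact mul_le_mul_of_nonneg_left hj.le hH0
    have q2 := Complex.abs_re_le_norm (∫ x in Tor \ RQ Q, SX h f X x ∂σ)
    have q3 := neg_abs_le (∫ x in Tor \ RQ Q, SX h f X x ∂σ).re
    linarith
  have p3 : -(s / (8 * Q) * Real.log X) ≤ (∫ x in Torᶜ, SX h f X x ∂σ).re := by
    rw [norm_div, Complex.norm_real, Real.norm_eq_abs, abs_of_pos hlogpos, div_lt_iff₀ hlogpos] at h1
    have q2 := Complex.abs_re_le_norm (∫ x in Torᶜ, SX h f X x ∂σ)
    have q3 := neg_abs_le (∫ x in Torᶜ, SX h f X x ∂σ).re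
    linarith
  have e5 : ∑ n ∈ Icc 1 X, h n * w (f n) / n = (∫ x, SX h f X x ∂σ).re := by
    rw [← e1, Complex.ofReal_re]
  have e6 : ∑ n ∈ Icc 1 X, h n * w (f n) / n ≤ ∑ n ∈ Icc 1 X, w (f n) / n := by
    refine sum_le_sum fun n _ => ?_
    apply div_le_div_of_nonneg_right _ (Nat.cast_nonneg _)
    exact mul_le_of_le_one_left (hw0 _) (hh2 n).2
  rw [e5, e2, Complex.add_re, Complex.add_re] at e6
  have e7 : 3 / (4 * (Q : ℝ)) * Real.log X * (7 / 8 * s) ≤ H * (7 / 8 * s) :=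
    mul_le_mul_of_nonneg_right hHlow (by positivity)
  have e8 : s / (2 * Q) * Real.log X ≤ 3 / (4 * (Q : ℝ)) * Real.log X * (7 / 8 * s) - s / (8 * Q) * Real.log X := by
    have : 3 / (4 * (Q : ℝ)) * Real.log X * (7 / 8 * s) - s / (8 * Q) * Real.log X - s / (2 * Q) * Real.log X =
      s / (32 * Q) * Real.log X := by field_simp; ring
    have h9 : 0 ≤ s / (32 * Q) * Real.log X := by positivity
    linarith
  linarith

/-- the number of the pairs with difference `m` -/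
def cor (A : Finset ℤ) (m : ℤ) : ℕ := (A.filter fun a => a + m ∈ A).card

lemma cor_eq (A : Finset ℤ) (u : ℤ) (N L : ℕ) (hA : A ⊆ Ioc u (u + N)) (i j : ℕ) (hj : j < L) :
    (cor A ((i : ℤ) - j) : ℝ) = ∑ x ∈ Ioc (u - L) (u + N), (if x + i ∈ A then (1 : ℝ) else 0) *
      (if x + j ∈ A then 1 else 0) := by
  have h1 : ∀ x : ℤ, (if x + i ∈ A then (1 : ℝ) else 0) * (if x + j ∈ A then 1 else 0) =
      if x + i ∈ A ∧ x + j ∈ A then 1 else 0 := by
    intro x
    by_cases h1 : x + i ∈ A <;> by_cases h2 : x + j ∈ A <;> simp [h1, h2]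
  simp only [h1]
  rw [sum_boole]
  congr 1
  unfold cor
  apply card_nbij' (fun a : ℤ => a - (j : ℤ)) (fun x : ℤ => x + (j : ℤ))
  · intro a ha
    rw [mem_coe, mem_filter] at ha
    rw [mem_coe, mem_filter]
    have := mem_Ioc.1 (hA ha.1)
    refine ⟨?_, ?_, ?_⟩
    · rw [mem_Ioc]
      change u - (L : ℤ) < a - j ∧ a - j ≤ u + (N : ℤ)
      constructor <;> omega
    · rw [show a - (j : ℤ) + i = a + (i - j) by ring]
      exact ha.2
    · rw [sub_add_cancel]
      exact ha.1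
  · intro x hx
    rw [mem_coe, mem_filter] at hx
    rw [mem_coe, mem_filter]
    refine ⟨hx.2.2, ?_⟩
    rw [show x + (j : ℤ) + (i - j) = x + i by ring]
    exact hx.2.1
  · intro a _
    ring
  · intro x _
    ring

lemma card_shift (A : Finset ℤ) (u : ℤ) (N L : ℕ) (hA : A ⊆ Ioc u (u + N)) (i : ℕ) (hi : i < L) :
    ∑ x ∈ Ioc (u - L) (u + N), (if x + i ∈ A then (1 : ℝ) else 0) = A.card := by
  rw [sum_boole]
  congr 1
  apply card_nbij' (fun x : ℤ => x + (i : ℤ)) (fun a : ℤ => a - (i : ℤ))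
  · intro x hx
    rw [mem_coe, mem_filter] at hx
    exact hx.2
  · intro a ha
    rw [mem_coe, mem_filter]
    have := mem_Ioc.1 (hA ha)
    refine ⟨?_, ?_⟩
    · rw [mem_Ioc]
      change u - (L : ℤ) < a - i ∧ a - i ≤ u + (N : ℤ)
      constructor <;> omega
    · rw [sub_add_cancel]
      exact ha
  · intro x _
    ring
  · intro a _
    ring

/-- the correlations of a finite set are positive definite -/
lemma cor_posdef (A : Finset ℤ) (u : ℤ) (N : ℕ) (hA : A ⊆ Ioc u (u + N)) (L : ℕ) (c : ℕ → ℂ) :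
    ∑ i ∈ range L, ∑ j ∈ range L, c i * (starRingEnd ℂ) (c j) * (cor A ((i : ℤ) - j) : ℂ) =
      ((∑ x ∈ Ioc (u - L) (u + N), Complex.normSq (∑ i ∈ range L, c i * (if x + i ∈ A then (1 : ℂ) else 0)) : ℝ) : ℂ) := by
  have h1 : ∀ i ∈ range L, ∀ j ∈ range L, c i * (starRingEnd ℂ) (c j) * (cor A ((i : ℤ) - j) : ℂ) =
      ∑ x ∈ Ioc (u - L) (u + N), (c i * (if x + i ∈ A then (1 : ℂ) else 0)) *
        (starRingEnd ℂ) (c j * (if x + j ∈ A then (1 : ℂ) else 0)) := by
    intro i _ j hj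
    have := cor_eq A u N L hA i j (mem_range.1 hj)
    rw [← Complex.ofReal_natCast, this, Complex.ofReal_sum, mul_sum]
    refine sum_congr rfl fun x _ => ?_
    split_ifs <;> simp
  rw [sum_congr rfl fun i hi => sum_congr rfl (h1 i hi)]
  rw [sum_congr rfl fun i _ => sum_comm, sum_comm, Complex.ofReal_sum]
  refine sum_congr rfl fun x _ => ?_
  rw [← Complex.mul_conj, map_sum, sum_mul_sum]

/-- the averages of the correlations -/
lemma cor_mean (A : Finset ℤ) (u : ℤ) (N : ℕ) (hA : A ⊆ Ioc u (u + N)) (L : ℕ) :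
    ((L : ℝ) * A.card) ^ 2 ≤ (N + L) * ∑ i ∈ range L, ∑ j ∈ range L, (cor A ((i : ℤ) - j) : ℝ) := by
  have h1 : ∑ i ∈ range L, ∑ j ∈ range L, (cor A ((i : ℤ) - j) : ℝ) =
      ∑ x ∈ Ioc (u - L) (u + N), (∑ i ∈ range L, (if x + i ∈ A then (1 : ℝ) else 0)) ^ 2 := by
    rw [sum_congr rfl fun i _ => sum_congr rfl fun j hj => cor_eq A u N L hA i j (mem_range.1 hj)]
    rw [sum_congr rfl fun i _ => sum_comm, sum_comm]
    refine sum_congr rfl fun x _ => ?_
    rw [sq, sum_mul_sum]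
  have h2 : (L : ℝ) * A.card = ∑ x ∈ Ioc (u - L) (u + N), ∑ i ∈ range L, (if x + i ∈ A then (1 : ℝ) else 0) := by
    rw [sum_comm, sum_congr rfl fun i hi => card_shift A u N L hA i (mem_range.1 hi), sum_const, card_range,
      nsmul_eq_mul]
  have h3 : ((Ioc (u - L) (u + N)).card : ℝ) = N + L := by
    rw [Int.card_Ioc]
    have : (u + (N : ℤ) - (u - L)).toNat = N + L := by omega
    rw [this]
    push_cast
    ring
  rw [h1, h2, ← h3]
  exact sq_sum_le_card_mul_sum_sq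

end Pool.Agent.H614.CW
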