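import Pool.Agent.H614.CW.Ar4
import Mathlib.Analysis.InnerProductSpace.MeanErgodic

/-!
Products of values of the Liouville function as weights for unitary operators.
-/

set_option autoImplicit false

namespace Pool.Agent.H614.CW

open Finset Filter Topology MeasureTheory
open Pool.Agent.Y958.U (LZ LZ_iff LZ_union LZ_bdd LZ_sub LZ_empty FF FF_le)

variable {H : Type*} [NormedAddCommGroup H] [InnerProductSpace ℂ H]

lemma zpow_app (U : H ≃ₗᵢ[ℂ] H) (v : H) (i j : ℤ) : (U ^ (i + j)) v = (U ^ i) ((U ^ j) v) := by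
  rw [zpow_add]
  rfl

lemma inner_zpow (U : H ≃ₗᵢ[ℂ] H) (v : H) (i j : ℤ) :
    inner ℂ ((U ^ j) v) ((U ^ i) v) = inner ℂ v ((U ^ (i - j)) v) := by
  have h : (U ^ i) v = (U ^ j) ((U ^ (i - j)) v) := by
    rw [← zpow_app]
    congr 2
    ring
  rw [h, LinearIsometryEquiv.inner_map_map]

lemma unitary_posdef (U : H ≃ₗᵢ[ℂ] H) (v : H) : PosDef fun m => inner ℂ v ((U ^ m) v) := by
  intro N c
  refine ⟨‖∑ i ∈ range N, c i • (U ^ (i : ℤ)) v‖ ^ 2, by positivity, ?_⟩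
  have h1 : ((‖∑ i ∈ range N, c i • (U ^ (i : ℤ)) v‖ ^ 2 : ℝ) : ℂ) =
      inner ℂ (∑ i ∈ range N, c i • (U ^ (i : ℤ)) v) (∑ i ∈ range N, c i • (U ^ (i : ℤ)) v) := by
    rw [inner_self_eq_norm_sq_to_K]
    push_cast
    rfl
  rw [h1, inner_sum]
  refine sum_congr rfl fun i _ => ?_
  rw [sum_inner]
  refine sum_congr rfl fun j _ => ?_
  rw [inner_smul_left, inner_smul_right, inner_zpow]
  ring

/-- the norm by the spectral measure -/
lemma norm_spec (U : H ≃ₗᵢ[ℂ] H) (v : H) (σ : Measure Cir) [IsFiniteMeasure σ]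
    (hσ : ∀ m : ℤ, ∫ x, (fourier m x : ℂ) ∂σ = inner ℂ v ((U ^ m) v)) (h : ℕ → ℝ) (f : ℕ → ℤ) (X : ℕ) :
    ‖∑ n ∈ Icc 1 X, ((h n / n : ℝ) : ℂ) • (U ^ (f n)) v‖ ^ 2 = ∫ x, ‖SX h f X x‖ ^ 2 ∂σ := by
  have h1 : ((‖∑ n ∈ Icc 1 X, ((h n / n : ℝ) : ℂ) • (U ^ (f n)) v‖ ^ 2 : ℝ) : ℂ) =
      ∑ n ∈ Icc 1 X, ∑ m ∈ Icc 1 X, ((h n / n : ℝ) : ℂ) * ((h m / m : ℝ) : ℂ) * ∫ x, (fourier (f n - f m) x : ℂ) ∂σ := by
    have h2 : ((‖∑ n ∈ Icc 1 X, ((h n / n : ℝ) : ℂ) • (U ^ (f n)) v‖ ^ 2 : ℝ) : ℂ) =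
        inner ℂ (∑ n ∈ Icc 1 X, ((h n / n : ℝ) : ℂ) • (U ^ (f n)) v) (∑ n ∈ Icc 1 X, ((h n / n : ℝ) : ℂ) • (U ^ (f n)) v) := by
      rw [inner_self_eq_norm_sq_to_K]
      push_cast
      rfl
    rw [h2, inner_sum]
    refine sum_congr rfl fun n _ => ?_
    rw [sum_inner]
    refine sum_congr rfl fun m _ => ?_
    rw [inner_smul_left, inner_smul_right, inner_zpow, hσ, Complex.conj_ofReal]
    ring
  have h3 : ((∫ x, ‖SX h f X x‖ ^ 2 ∂σ : ℝ) : ℂ) = ∫ x, ((‖SX h f X x‖ ^ 2 : ℝ) : ℂ) ∂σ :=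
    (integral_complex_ofReal).symm
  have h4 : ∀ x, ((‖SX h f X x‖ ^ 2 : ℝ) : ℂ) = ∑ n ∈ Icc 1 X, ∑ m ∈ Icc 1 X,
      ((h n / n : ℝ) : ℂ) * ((h m / m : ℝ) : ℂ) * (fourier (f n - f m) x : ℂ) := by
    intro x
    have h5 : ((‖SX h f X x‖ ^ 2 : ℝ) : ℂ) = SX h f X x * (starRingEnd ℂ) (SX h f X x) := by
      rw [Complex.mul_conj, Complex.normSq_eq_norm_sq]
    rw [h5]
    unfold SX
    rw [map_sum, sum_mul_sum]
    refine sum_congr rfl fun n _ => sum_congr rfl fun m _ => ?_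
    rw [map_mul, Complex.conj_ofReal, sub_eq_add_neg, fourier_add, fourier_neg]
    ring
  apply Complex.ofReal_injective
  rw [h1, h3]
  simp only [h4]
  rw [integral_finsetSum]
  · refine sum_congr rfl fun n _ => ?_
    rw [integral_finsetSum]
    · refine sum_congr rfl fun m _ => ?_
      rw [integral_const_mul]
    · intro m _
      exact (int_fourier_fin _ _).const_mul _
  · intro n _
    apply integrable_finsetSum
    intro m _
    exact (int_fourier_fin _ _).const_mul _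

/-- convergence in the norm -/
theorem unitary_avg (U : H ≃ₗᵢ[ℂ] H) (v : H) (σ : Measure Cir) [IsFiniteMeasure σ]
    (hσ : ∀ m : ℤ, ∫ x, (fourier m x : ℂ) ∂σ = inner ℂ v ((U ^ m) v)) {h : ℕ → ℝ} {B : ℝ} (hB : ∀ n, |h n| ≤ B)
    (f : ℕ → ℤ) (hlim : ∀ᵐ x ∂σ, Tendsto (fun X : ℕ => SX h f X x / Real.log X) atTop (𝓝 0)) :
    Tendsto (fun X : ℕ => (1 / (Real.log X : ℂ)) • ∑ n ∈ Icc 1 X, ((h n / n : ℝ) : ℂ) • (U ^ (f n)) v) atTop
      (𝓝 0) := by
  have hB0 : 0 ≤ B := (abs_nonneg _).trans (hB 0)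
  have h1 : Tendsto (fun X : ℕ => ∫ x, ‖SX h f X x / Real.log X‖ ^ 2 ∂σ) atTop (𝓝 (∫ _, (0 : ℝ) ∂σ)) := by
    apply tendsto_integral_filter_of_dominated_convergence (fun _ => (B * 2) ^ 2)
    · refine Eventually.of_forall fun X => Continuous.aestronglyMeasurable ?_
      exact (((SX_cont h f X).div_const _).norm).pow 2
    · filter_upwards [log_tend.eventually_ge_atTop 1] with X hX
      refine Eventually.of_forall fun x => ?_
      have hX0 : 0 < Real.log X := by linarith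
      rw [Real.norm_eq_abs, abs_of_nonneg (by positivity)]
      apply pow_le_pow_left₀ (norm_nonneg _)
      rw [norm_div, Complex.norm_real, Real.norm_eq_abs, abs_of_pos hX0, div_le_iff₀ hX0]
      refine (SX_le hB f X x).trans ?_
      nlinarith
    · exact integrable_const _
    · filter_upwards [hlim] with x hx
      have := (hx.norm).pow 2
      simpa using this
  rw [integral_zero] at h1
  rw [tendsto_zero_iff_norm_tendsto_zero]
  have h2 : ∀ X : ℕ, ∫ x, ‖SX h f X x / Real.log X‖ ^ 2 ∂σ =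
      ‖(1 / (Real.log X : ℂ)) • ∑ n ∈ Icc 1 X, ((h n / n : ℝ) : ℂ) • (U ^ (f n)) v‖ ^ 2 := by
    intro X
    rw [norm_smul, mul_pow, norm_spec U v σ hσ h f X, ← integral_const_mul]
    congr 1
    ext x
    rw [norm_div, norm_div, norm_one]
    ring
  simp only [h2] at h1
  have h3 := h1.sqrt
  simp only [Real.sqrt_zero] at h3
  refine h3.congr fun X => ?_
  rw [Real.sqrt_sq (norm_nonneg _)]

/-- the product, all the frequencies, for odd orders and pairs -/
lemma all_freq {k : ℕ} (hk : Odd k ∨ k = 2) (a b : Fin k → ℕ) (hab : Adm a b) (F : Polynomial ℤ)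
    (hF : 1 ≤ F.natDegree) (x : Cir) :
    Tendsto (fun X : ℕ => SX (FF a b) (fun n => F.eval (n : ℤ)) X x / Real.log X) atTop (𝓝 0) := by
  have hk1 : 1 ≤ k := by
    rcases hk with h | h
    · exact h.pos
    · omega
  have hg : gam k = 0 := by
    unfold gam
    rcases hk with h | h
    · rw [if_pos h]
    · subst h
      norm_num
  by_cases hx : x ∈ Tor
  · obtain ⟨Q, hQ, hQx⟩ := hx
    have hxQ : x ∈ RQ Q := hQx
    have e1 : ∀ X : ℕ, SX (FF a b) (fun n => F.eval (n : ℤ)) X x = ∑ r ∈ range Q,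
        ((∑ n ∈ (Icc 1 X).filter (fun n => n % Q = r), FF a b n / n : ℝ) : ℂ) * fourier (F.eval (r : ℤ)) x := by
      intro X
      unfold SX
      rw [← sum_fiberwise_of_maps_to (g := fun n => n % Q) (t := range Q)
        (fun n _ => mem_range.2 (Nat.mod_lt _ (by omega)))]
      refine sum_congr rfl fun r _ => ?_
      push_cast
      rw [sum_mul]
      refine sum_congr rfl fun n hn => ?_
      rw [mem_filter] at hn
      congr 1
      rw [← hn.2]
      exact fourier_congr hxQ (poly_mod F Q n)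
    simp only [e1, sum_div]
    rw [show (0 : ℂ) = ∑ r ∈ range Q, 0 by simp]
    refine tendsto_finsetSum _ fun r hr => ?_
    rw [tendsto_zero_iff_norm_tendsto_zero, tendsto_order]
    refine ⟨fun c hc => Eventually.of_forall fun X => hc.trans_le (norm_nonneg _), fun c hc => ?_⟩
    filter_upwards [class_log hk1 a b hab Q r (mem_range.1 hr) (c / 2) (by positivity),
      log_tend.eventually_gt_atTop 0] with X h1 h2
    rw [norm_div, norm_mul, norm_fourier, mul_one, Complex.norm_real, Complex.norm_real, Real.norm_eq_abs,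
      Real.norm_eq_abs, abs_of_pos h2, div_lt_iff₀ h2]
    rw [hg, zero_div, zero_add] at h1
    refine h1.trans_lt ?_
    have : 0 < c / 2 * Real.log X := by positivity
    linarith
  · exact irr_one F hF a b hab.1 x hx

/-- **unitary operators**, odd orders and pairs -/
theorem uni1 {k : ℕ} (hk : Odd k ∨ k = 2) (a b : Fin k → ℕ) (hab : Adm a b) (F : Polynomial ℤ)
    (hF : 1 ≤ F.natDegree) (U : H ≃ₗᵢ[ℂ] H) (v : H) :
    Tendsto (fun X : ℕ => (1 / (Real.log X : ℂ)) • ∑ n ∈ Icc 1 X, ((FF a b n / n : ℝ) : ℂ) •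
      (U ^ (F.eval (n : ℤ))) v) atTop (𝓝 0) := by
  obtain ⟨σ, hσ, hσw⟩ := herglotz (unitary_posdef U v)
  exact unitary_avg U v σ hσw (FF_le a b) (fun n => F.eval (n : ℤ))
    (Eventually.of_forall fun x => all_freq hk a b hab F hF x)

/-- the spectral measure of a vector orthogonal to the periodic ones -/
lemma tor_null [CompleteSpace H] (U : H ≃ₗᵢ[ℂ] H) (v : H) (σ : Measure Cir) [IsFiniteMeasure σ]
    (hσ : ∀ m : ℤ, ∫ x, (fourier m x : ℂ) ∂σ = inner ℂ v ((U ^ m) v))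
    (hv : ∀ q : ℕ, 1 ≤ q → ∀ y : H, (U ^ q) y = y → inner ℂ y v = (0 : ℂ)) : σ Tor = 0 := by
  have h1 : ∀ q : ℕ, 1 ≤ q → σ.real (RQ q) = 0 := by
    intro q hq
    set T : H →L[ℂ] H := ((U ^ q : H ≃ₗᵢ[ℂ] H) : H →L[ℂ] H) with hT
    have hTn : ‖T‖ ≤ 1 := by
      apply ContinuousLinearMap.opNorm_le_bound _ zero_le_one
      intro y
      rw [one_mul, hT]
      exact ((U ^ q : H ≃ₗᵢ[ℂ] H).norm_map y).le
    have h2 := T.tendsto_birkhoffAverage_orthogonalProjection hTn v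
    have h3 : (((T.eqLocus (1 : H →L[ℂ] H)).orthogonalProjectionOnto v : T.eqLocus (1 : H →L[ℂ] H)) : H) = 0 := by
      have : (T.eqLocus (1 : H →L[ℂ] H)).orthogonalProjectionOnto v = 0 := by
        rw [Submodule.orthogonalProjectionOnto_eq_zero_iff, Submodule.mem_orthogonal]
        intro y hy
        exact hv q hq y hy
      rw [this]
      rfl
    rw [h3] at h2
    have h4 := (continuous_const.inner continuous_id : Continuous fun y : H => inner ℂ v y).tendsto (0 : H)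
    have h5 := h4.comp h2
    have h6 := avg_prog σ q 0
    have h7 : ∀ L : ℕ, inner ℂ v (birkhoffAverage ℂ T _root_.id L v) =
        (1 / (L : ℂ)) * ∑ l ∈ range L, ∫ x, (fourier (0 + q * l) x : ℂ) ∂σ := by
      intro L
      unfold birkhoffAverage birkhoffSum
      rw [inner_smul_right, inner_sum, one_div]
      congr 1
      refine sum_congr rfl fun l _ => ?_
      rw [hσ]
      congr 1
      have h8 : ∀ l : ℕ, T^[l] v = (U ^ ((q : ℤ) * l)) v := by
        intro l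
        induction l with
        | zero => simp
        | succ l ih =>
          rw [Function.iterate_succ_apply', ih]
          have : ((q : ℤ) * ((l + 1 : ℕ) : ℤ)) = (q : ℤ) + q * l := by push_cast; ring
          rw [this, zpow_app, zpow_natCast]
          rfl
      rw [zero_add, ← h8]
      rfl
    have h9 : Tendsto (fun L : ℕ => (1 / (L : ℂ)) * ∑ l ∈ range L, ∫ x, (fourier (0 + q * l) x : ℂ) ∂σ) atTop (𝓝 0) := by
      refine (h5.congr fun L => h7 L).trans ?_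
      rw [inner_zero_right]
    have h10 := tendsto_nhds_unique h6 h9
    have h11 : ∫ x in RQ q, (fourier 0 x : ℂ) ∂σ = ((σ.real (RQ q) : ℝ) : ℂ) := by
      have : ∀ x ∈ RQ q, (fourier 0 x : ℂ) = 1 := fun x _ => fourier_zero
      rw [setIntegral_congr_fun (RQ_meas q) this, setIntegral_const, Complex.real_smul, mul_one]
    rw [h11] at h10
    exact_mod_cast h10
  have h2 : σ (Tor) ≤ ∑' q : ℕ, σ (if 1 ≤ q then RQ q else ∅) := by
    have : Tor = ⋃ q : ℕ, if 1 ≤ q then RQ q else ∅ := by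
      ext x
      simp only [Tor, Set.mem_ofPred_eq, Set.mem_iUnion]
      constructor
      · rintro ⟨q, hq, h⟩
        exact ⟨q, by rw [if_pos hq]; exact h⟩
      · rintro ⟨q, h⟩
        by_cases hq : 1 ≤ q
        · rw [if_pos hq] at h
          exact ⟨q, hq, h⟩
        · rw [if_neg hq] at h
          exact absurd h (Set.notMem_empty _)
    rw [this]
    exact measure_iUnion_le _
  refine le_antisymm (h2.trans (le_of_eq ?_)) zero_le
  rw [ENNReal.tsum_eq_zero]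
  intro q
  split_ifs with hq
  · have := h1 q hq
    rw [measureReal_eq_zero_iff] at this
    exact this
  · exact measure_empty

/-- **unitary operators**, all the orders -/
theorem uni2 [CompleteSpace H] {k : ℕ} (a b : Fin k → ℕ) (ha : ∀ i, 1 ≤ a i) (F : Polynomial ℤ)
    (hF : 1 ≤ F.natDegree) (U : H ≃ₗᵢ[ℂ] H) (v : H)
    (hv : ∀ q : ℕ, 1 ≤ q → ∀ y : H, (U ^ q) y = y → inner ℂ y v = (0 : ℂ)) :
    Tendsto (fun X : ℕ => (1 / (Real.log X : ℂ)) • ∑ n ∈ Icc 1 X, ((FF a b n / n : ℝ) : ℂ) •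
      (U ^ (F.eval (n : ℤ))) v) atTop (𝓝 0) := by
  obtain ⟨σ, hσ, hσw⟩ := herglotz (unitary_posdef U v)
  refine unitary_avg U v σ hσw (FF_le a b) (fun n => F.eval (n : ℤ)) ?_
  have h1 : ∀ᵐ x ∂σ, x ∉ Tor := by
    rw [← measure_eq_zero_iff_ae_notMem]
    exact tor_null U v σ hσw hv
  filter_upwards [h1] with x hx
  exact irr_one F hF a b ha x hx

/-- patterns by products, vector valued -/
lemma ip_sum_vec {k : ℕ} (a b : Fin k → ℕ) (s : Fin k → ℤ) (hs : ∀ i, s i = 1 ∨ s i = -1) (V : ℕ → H) (X : ℕ) :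
    ∑ n ∈ Icc 1 X, (((ip a b s n - 1 / 2 ^ k) / n : ℝ) : ℂ) • V n =
      ∑ E ∈ (univ : Finset (Fin k)).powerset.erase ∅, ((1 / 2 ^ k * sE s E : ℝ) : ℂ) •
        ∑ n ∈ Icc 1 X, ((PE a b E n / n : ℝ) : ℂ) • V n := by
  simp only [smul_sum]
  rw [sum_comm]
  refine sum_congr rfl fun n _ => ?_
  have h1 : ip a b s n - 1 / 2 ^ k = ∑ E ∈ (univ : Finset (Fin k)).powerset.erase ∅, 1 / 2 ^ k * sE s E * PE a b E n := by
    rw [ip_eq a b s hs, ← add_sum_erase _ _ (empty_mem_powerset (univ : Finset (Fin k))), mul_add]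
    have h2 : sE s ∅ * PE a b ∅ n = 1 := by
      unfold sE PE
      simp
    rw [h2, mul_one, add_sub_cancel_left, mul_sum]
    refine sum_congr rfl fun E _ => ?_
    ring
  rw [h1, sum_div, Complex.ofReal_sum, sum_smul]
  refine sum_congr rfl fun E _ => ?_
  rw [smul_smul, ← Complex.ofReal_mul]
  congr 2
  ring

/-- **unitary operators**, patterns of length at most three -/
theorem uni3 {k : ℕ} (hk : k ≤ 3) (a b : Fin k → ℕ) (hab : Adm a b) (s : Fin k → ℤ)
    (hs : ∀ i, s i = 1 ∨ s i = -1) (F : Polynomial ℤ) (hF : 1 ≤ F.natDegree) (U : H ≃ₗᵢ[ℂ] H) (v : H) :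
    Tendsto (fun X : ℕ => (1 / (Real.log X : ℂ)) • ∑ n ∈ Icc 1 X, (((ip a b s n - 1 / 2 ^ k) / n : ℝ) : ℂ) •
      (U ^ (F.eval (n : ℤ))) v) atTop (𝓝 0) := by
  simp only [ip_sum_vec a b s hs]
  have h0 : (0 : H) = ∑ E ∈ (univ : Finset (Fin k)).powerset.erase ∅, ((1 / 2 ^ k * sE s E : ℝ) : ℂ) • (0 : H) := by
    simp
  have h1 : Tendsto (fun X : ℕ => ∑ E ∈ (univ : Finset (Fin k)).powerset.erase ∅, ((1 / 2 ^ k * sE s E : ℝ) : ℂ) •
      ((1 / (Real.log X : ℂ)) • ∑ n ∈ Icc 1 X, ((PE a b E n / n : ℝ) : ℂ) • (U ^ (F.eval (n : ℤ))) v)) atTop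
        (𝓝 0) := by
    rw [h0]
    refine tendsto_finsetSum _ fun E hE => Tendsto.const_smul ?_ _
    have hE1 : E ≠ ∅ := ne_of_mem_erase hE
    have hE2 : 1 ≤ E.card := Finset.card_pos.2 (nonempty_iff_ne_empty.2 hE1)
    have hE3 : E.card ≤ 3 := (card_le_univ E).trans (by simpa using hk)
    simp only [PE_eq]
    apply uni1 _ _ _ (Adm_sub hab E) F hF U v
    interval_cases E.card
    · exact Or.inl (by decide)
    · exact Or.inr rfl
    · exact Or.inl (by decide)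
  refine h1.congr fun X => ?_
  rw [smul_sum]
  refine sum_congr rfl fun E _ => ?_
  rw [smul_comm]

/-- **unitary operators**, patterns of every length -/
theorem uni4 [CompleteSpace H] {k : ℕ} (a b : Fin k → ℕ) (ha : ∀ i, 1 ≤ a i) (s : Fin k → ℤ)
    (hs : ∀ i, s i = 1 ∨ s i = -1) (F : Polynomial ℤ) (hF : 1 ≤ F.natDegree) (U : H ≃ₗᵢ[ℂ] H) (v : H)
    (hv : ∀ q : ℕ, 1 ≤ q → ∀ y : H, (U ^ q) y = y → inner ℂ y v = (0 : ℂ)) :
    Tendsto (fun X : ℕ => (1 / (Real.log X : ℂ)) • ∑ n ∈ Icc 1 X, ((ip a b s n / n : ℝ) : ℂ) •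
      (U ^ (F.eval (n : ℤ))) v) atTop (𝓝 0) := by
  have h0 : (0 : H) = ∑ E ∈ (univ : Finset (Fin k)).powerset, ((1 / 2 ^ k * sE s E : ℝ) : ℂ) • (0 : H) := by
    simp
  have h1 : Tendsto (fun X : ℕ => ∑ E ∈ (univ : Finset (Fin k)).powerset, ((1 / 2 ^ k * sE s E : ℝ) : ℂ) •
      ((1 / (Real.log X : ℂ)) • ∑ n ∈ Icc 1 X, ((PE a b E n / n : ℝ) : ℂ) • (U ^ (F.eval (n : ℤ))) v)) atTop
        (𝓝 0) := by
    rw [h0]
    refine tendsto_finsetSum _ fun E _ => Tendsto.const_smul ?_ _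
    simp only [PE_eq]
    exact uni2 _ _ (fun i => ha _) F hF U v hv
  refine h1.congr fun X => ?_
  have h2 : ∀ n, ip a b s n = ∑ E ∈ (univ : Finset (Fin k)).powerset, 1 / 2 ^ k * sE s E * PE a b E n := by
    intro n
    rw [ip_eq a b s hs, mul_sum]
    refine sum_congr rfl fun E _ => ?_
    ring
  simp only [smul_sum]
  rw [sum_comm]
  refine sum_congr rfl fun n _ => ?_
  rw [h2, sum_div, Complex.ofReal_sum, sum_smul, smul_sum]
  refine sum_congr rfl fun E _ => ?_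
  rw [smul_smul, smul_smul, smul_smul]
  congr 1
  push_cast
  ring

end Pool.Agent.H614.CW
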